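import Pool.Agent.Lib.MP_938ce2_ag_h99v.GD

/-!
The parity of the number of elements of order a power of `p`.
-/

set_option autoImplicit false
set_option linter.style.haveILetI false
set_option linter.unusedSectionVars false

open Finset

namespace Pool.Agent.Lib.MP_938ce2_ag_h99y

open Pool.Agent.Lib.MP_938ce2_ag_h99 Pool.Agent.Lib.MP_938ce2_ag_h6
open Pool.Agent.Lib.MP_938ce2_ag_h99t Pool.Agent.Lib.MP_938ce2_ag_h99v

variable {m : ℕ} [NeZero m]

open Classical in
/-- the nonzero elements of order a power of `p` -/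
noncomputable def Pp (m p : ℕ) [NeZero m] : Finset (ZMod m) :=
  univ.filter fun a => a ≠ 0 ∧ ∃ k : ℕ, ((p ^ k : ℕ) : ZMod m) * a = 0

lemma mem_Pp {p : ℕ} {a : ZMod m} :
    a ∈ Pp m p ↔ a ≠ 0 ∧ ∃ k : ℕ, ((p ^ k : ℕ) : ZMod m) * a = 0 := by
  unfold Pp
  simp only [mem_filter, mem_univ, true_and]

lemma neg_mem_Pp {p : ℕ} {a : ZMod m} (h : a ∈ Pp m p) : -a ∈ Pp m p := by
  rw [mem_Pp] at h ⊢
  obtain ⟨h1, k, h2⟩ := h
  exact ⟨neg_ne_zero.mpr h1, k, by rw [mul_neg, h2, neg_zero]⟩

/-- an integer prime to `p` is not a zero divisor on the elements of order a power of `p` -/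
lemma eq_zero_of_mul {p n k : ℕ} (hpn : Nat.Coprime n p) {a : ZMod m}
    (h1 : (n : ZMod m) * a = 0) (h2 : ((p ^ k : ℕ) : ZMod m) * a = 0) : a = 0 := by
  have h3 : IsCoprime (n : ℤ) ((p ^ k : ℕ) : ℤ) := by
    rw [Nat.isCoprime_iff_coprime]
    exact Nat.Coprime.pow_right k hpn
  obtain ⟨u, v, huv⟩ := h3
  have h4 : ((u * n + v * ((p ^ k : ℕ) : ℤ) : ℤ) : ZMod m) * a = 0 := by
    push_cast at h2 ⊢
    rw [add_mul, mul_assoc, h1, mul_assoc, h2, mul_zero, mul_zero, add_zero]
  rw [huv] at h4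
  simpa using h4

lemma neg_ne_of_Pp {p : ℕ} (hp : p.Prime) (hp2 : p ≠ 2) {a : ZMod m} (h : a ∈ Pp m p) :
    -a ≠ a := by
  intro h3
  rw [mem_Pp] at h
  obtain ⟨h1, k, h2⟩ := h
  apply h1
  refine eq_zero_of_mul (n := 2) (p := p) (k := k) ?_ ?_ h2
  · exact (Nat.coprime_primes Nat.prime_two hp).mpr (Ne.symm hp2)
  · push_cast
    linear_combination -h3

/-- a choice of one of `a, -a` -/
def hw (a : ZMod m) : ZMod 2 := if 2 * a.val < m then 1 else 0

lemma hw_add_neg {p : ℕ} (hp : p.Prime) (hp2 : p ≠ 2) {a : ZMod m} (h : a ∈ Pp m p) :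
    hw a + hw (-a) = 1 := by
  have h1 := neg_ne_of_Pp hp hp2 h
  have h0 := (mem_Pp.mp h).1
  have h2 : (-a).val = m - a.val := neg_val_sum a h0
  have h3 := a.val_lt
  have h4 : 2 * a.val ≠ m := by
    intro h5
    apply h1
    apply ZMod.val_injective
    rw [h2]
    omega
  unfold hw
  rw [h2]
  split_ifs <;> first | omega | decide

/-- The half sum of an odd function over the elements of order a power of `p`, modulo two. -/
noncomputable def lamF (m p : ℕ) [NeZero m] : (ZMod m → ℤ) →+ ZMod 2 where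
  toFun F := ∑ a ∈ Pp m p, hw a * ((F a : ℤ) : ZMod 2)
  map_zero' := by simp
  map_add' F G := by
    rw [← sum_add_distrib]
    refine sum_congr rfl fun a _ => ?_
    rw [Pi.add_apply]
    push_cast
    ring

lemma lamF_apply (p : ℕ) (F : ZMod m → ℤ) :
    lamF m p F = ∑ a ∈ Pp m p, hw a * ((F a : ℤ) : ZMod 2) := rfl

lemma two_zmod (x : ZMod 2) : x + x = 0 := by
  revert x
  decide

/-- the half sum does not depend on the choices -/
lemma sum_weight {p : ℕ} (hp : p.Prime) (hp2 : p ≠ 2) {F : ZMod m → ℤ} (hF : OddF F)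
    (n : ZMod m → ZMod 2) (hn : ∀ a ∈ Pp m p, F a ≠ 0 → n a + n (-a) = 1) :
    ∑ a ∈ Pp m p, n a * ((F a : ℤ) : ZMod 2) = lamF m p F := by
  rw [lamF_apply, ← sub_eq_zero, ← sum_sub_distrib]
  refine sum_involution (fun a _ => -a) ?_ ?_ ?_ ?_
  · intro a ha
    have h1 : ((F (-a) : ℤ) : ZMod 2) = ((F a : ℤ) : ZMod 2) := by
      rw [hF a, Int.cast_neg, ZMod.neg_eq_self_mod_two]
    rw [h1]
    by_cases h0 : F a = 0
    · rw [h0]
      simp
    · have h2 := hn a ha h0
      have h3 := hw_add_neg hp hp2 ha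
      linear_combination ((F a : ℤ) : ZMod 2) * (h2 - h3)
  · intro a ha _
    exact neg_ne_of_Pp hp hp2 ha
  · intro a ha
    exact neg_mem_Pp ha
  · intro a _
    exact neg_neg a

lemma lamF_oddPart {p : ℕ} (hp : p.Prime) (hp2 : p ≠ 2) (s : Multiset (ZMod m)) :
    lamF m p (oddPart s) = ∑ a ∈ Pp m p, (s.count a : ZMod 2) := by
  rw [lamF_apply]
  have h1 : ∀ a ∈ Pp m p, hw a * ((oddPart s a : ℤ) : ZMod 2) =
      hw a * (s.count a : ZMod 2) + hw a * (s.count (-a) : ZMod 2) := by
    intro a _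
    unfold oddPart
    push_cast
    have h2 : -(s.count (-a) : ZMod 2) = (s.count (-a) : ZMod 2) := ZMod.neg_eq_self_mod_two _
    linear_combination hw a * h2
  rw [sum_congr rfl h1, sum_add_distrib]
  have h2 : ∑ a ∈ Pp m p, hw a * (s.count (-a) : ZMod 2) =
      ∑ a ∈ Pp m p, hw (-a) * (s.count a : ZMod 2) := by
    refine sum_nbij' (fun a => -a) (fun a => -a) (fun a ha => neg_mem_Pp ha)
      (fun a ha => neg_mem_Pp ha) (fun a _ => neg_neg a) (fun a _ => neg_neg a) ?_
    intro a _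
    rw [neg_neg]
  rw [h2, ← sum_add_distrib]
  refine sum_congr rfl fun a ha => ?_
  rw [← add_mul, hw_add_neg hp hp2 ha, one_mul]

/-- relations have even half sums -/
lemma lamF_rel {p q : ℕ} (hp : p.Prime) (hp2 : p ≠ 2) (hq : q.Prime) (hqm : q ∣ m)
    {g : ZMod m → ℤ} (hg : OddF g) (hs : ∀ a, g a ≠ 0 → ∃ b, a = (q : ZMod m) * b) :
    lamF m p (rel q g) = 0 := by
  classical
  have hg0 : g 0 = 0 := by
    have := hg 0
    rw [neg_zero] at this
    omega
  -- the weight
  set n : ZMod m → ZMod 2 := fun c => ∑ b ∈ (Pp m p).filter (fun b => (q : ZMod m) * b = c), hw b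
    with hn
  have h1 : ∑ b ∈ Pp m p, hw b * ((g ((q : ZMod m) * b) : ℤ) : ZMod 2) =
      ∑ c ∈ Pp m p, n c * ((g c : ℤ) : ZMod 2) := by
    have h2 : ∀ b ∈ Pp m p, hw b * ((g ((q : ZMod m) * b) : ℤ) : ZMod 2) =
        ∑ c ∈ Pp m p, if (q : ZMod m) * b = c then hw b * ((g c : ℤ) : ZMod 2) else 0 := by
      intro b hb
      rw [sum_ite_eq]
      split_ifs with h3
      · rfl
      · have h4 : (q : ZMod m) * b = 0 := by
          by_contra h5
          apply h3
          obtain ⟨-, k, hk⟩ := mem_Pp.mp hb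
          exact mem_Pp.mpr ⟨h5, k, by rw [mul_left_comm, hk, mul_zero]⟩
        rw [h4, hg0]
        simp
    rw [sum_congr rfl h2, sum_comm]
    refine sum_congr rfl fun c _ => ?_
    rw [hn]
    simp only
    rw [sum_mul, sum_filter]
  have h2 : ∑ c ∈ Pp m p, n c * ((g c : ℤ) : ZMod 2) = lamF m p g := by
    refine sum_weight hp hp2 hg n ?_
    intro c hc hgc
    -- the number of elements of the fibre is odd
    have h3 : n (-c) = ∑ b ∈ (Pp m p).filter (fun b => (q : ZMod m) * b = c), hw (-b) := by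
      rw [hn]
      simp only
      refine sum_nbij' (fun a => -a) (fun a => -a) ?_ ?_ (fun a _ => neg_neg a)
        (fun a _ => neg_neg a) ?_
      · intro b hb
        rw [mem_filter] at hb ⊢
        exact ⟨neg_mem_Pp hb.1, by rw [mul_neg, hb.2, neg_neg]⟩
      · intro b hb
        rw [mem_filter] at hb ⊢
        exact ⟨neg_mem_Pp hb.1, by rw [mul_neg, hb.2]⟩
      · intro b _
        rw [neg_neg]
    rw [h3, hn]
    simp only
    rw [← sum_add_distrib]
    have h4 : ∀ b ∈ (Pp m p).filter (fun b => (q : ZMod m) * b = c), hw b + hw (-b) = 1 :=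
      fun b hb => hw_add_neg hp hp2 (mem_filter.mp hb).1
    rw [sum_congr rfl h4, sum_const, nsmul_eq_mul, mul_one]
    obtain ⟨b0, hb0⟩ := hs c hgc
    obtain ⟨hc0, k, hk⟩ := mem_Pp.mp hc
    by_cases hqp : q = p
    · subst hqp
      have h5 : (Pp m q).filter (fun b => (q : ZMod m) * b = c) =
          univ.filter fun x : ZMod m => (q : ZMod m) * x = (q : ZMod m) * b0 := by
        ext b
        rw [mem_filter, mem_filter, ← hb0]
        constructor
        · intro h
          exact ⟨mem_univ _, h.2⟩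
        · intro h
          refine ⟨mem_Pp.mpr ⟨?_, k + 1, ?_⟩, h.2⟩
          · rintro rfl
            rw [mul_zero] at h
            exact hc0 h.2.symm
          · rw [pow_succ, Nat.cast_mul, mul_assoc, h.2, hk]
      have h6 := card_fib hq.pos hqm (a := b0) (by rw [← hb0]; exact hc0)
      have h7 : ((Pp m q).filter (fun b => (q : ZMod m) * b = c)).card = q := by
        rw [h5]
        exact h6
      rw [h7]
      have h8 : q % 2 = 1 := hq.eq_two_or_odd.resolve_left hp2
      rw [← ZMod.natCast_mod, h8]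
      rfl
    · have hcop : Nat.Coprime q p := (Nat.coprime_primes hq hp).mpr hqp
      have h5 : ∃ b, (Pp m p).filter (fun b => (q : ZMod m) * b = c) = {b} := by
        have h6 : IsCoprime (q : ℤ) ((p ^ k : ℕ) : ℤ) := by
          rw [Nat.isCoprime_iff_coprime]
          exact Nat.Coprime.pow_right k hcop
        obtain ⟨u, v, huv⟩ := h6
        have h7 : (q : ZMod m) * ((u : ZMod m) * c) = c := by
          have h8 : ((u * q + v * ((p ^ k : ℕ) : ℤ) : ℤ) : ZMod m) * c = c := by
            rw [huv]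
            simp
          push_cast at h8 hk
          linear_combination h8 - (v : ZMod m) * hk
        refine ⟨(u : ZMod m) * c, ?_⟩
        ext b
        rw [mem_filter, mem_singleton]
        constructor
        · rintro ⟨hb, hbc⟩
          obtain ⟨-, k', hk'⟩ := mem_Pp.mp hb
          have h8 : b - (u : ZMod m) * c = 0 := by
            refine eq_zero_of_mul (n := q) (p := p) (k := k' + k) hcop ?_ ?_
            · rw [mul_sub, hbc, h7, sub_self]
            · rw [pow_add, Nat.cast_mul]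
              linear_combination ((p ^ k : ℕ) : ZMod m) * hk' -
                ((p ^ k' : ℕ) : ZMod m) * (u : ZMod m) * hk
          exact sub_eq_zero.mp h8
        · rintro rfl
          refine ⟨mem_Pp.mpr ⟨?_, k, by rw [mul_left_comm, hk, mul_zero]⟩, h7⟩
          intro h8
          rw [h8, mul_zero] at h7
          exact hc0 h7.symm
      obtain ⟨b, hb⟩ := h5
      rw [hb, card_singleton]
      rfl
  rw [lamF_apply]
  have h3 : ∀ b ∈ Pp m p, hw b * ((rel q g b : ℤ) : ZMod 2) =
      hw b * ((g ((q : ZMod m) * b) : ℤ) : ZMod 2) - hw b * ((g b : ℤ) : ZMod 2) := by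
    intro b _
    unfold rel
    push_cast
    ring
  rw [sum_congr rfl h3, sum_sub_distrib, h1, h2, ← lamF_apply, sub_self]

lemma lamF_relSub {p : ℕ} (hp : p.Prime) (hp2 : p ≠ 2) {F : ZMod m → ℤ} (hF : F ∈ relSub m) :
    lamF m p F = 0 := by
  unfold relSub at hF
  induction hF using AddSubgroup.closure_induction with
  | mem x hx =>
    obtain ⟨q, g, hq, hqm, hg, hs, rfl⟩ := hx
    exact lamF_rel hp hp2 hq hqm hg hs
  | zero => exact map_zero _
  | add x y _ _ hx hy => rw [map_add, hx, hy, add_zero]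
  | neg x _ hx => rw [map_neg, hx, neg_zero]

end Pool.Agent.Lib.MP_938ce2_ag_h99y
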