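import Pool.Agent.Lib.MP_938ce2_ag_h99y.Y01

/-!
Theta sets contain an even number of elements of order a power of `p`, for `p = 1` modulo `4`.
-/

set_option autoImplicit false
set_option linter.style.haveILetI false
set_option linter.unusedSectionVars false

open Finset

namespace Pool.Agent.Lib.MP_938ce2_ag_h99y

open Pool.Agent.Lib.MP_938ce2_ag_h99 Pool.Agent.Lib.MP_938ce2_ag_h6
open Pool.Agent.Lib.MP_938ce2_ag_h99t Pool.Agent.Lib.MP_938ce2_ag_h99v

variable {m : ℕ} [NeZero m]

private lemma Y2_mem {c : ZMod m} {D : ℕ} {ε : ℕ → ℤˣ} {x : ZMod m} :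
    x ∈ thetaSet c D ε ↔ ∃ j : ℕ, x = c + (m / D * j : ℕ) ∧
      ∀ p, p.Prime → p ∣ D → jacobiSym j p = ε p := by
  simp only [thetaSet, Finset.mem_val, Finset.mem_filter, Finset.mem_univ, true_and]

/-- the elements of order a power of `p` of a theta set are closed under `-1` -/
private lemma Y2_neg {p : ℕ} (hp : p.Prime) (hp4 : p % 4 = 1) {c : ZMod m} {D : ℕ}
    (h : Allowed1 m c D) {ε : ℕ → ℤˣ} {x : ZMod m} (hx : x ∈ thetaSet c D ε) (hxp : x ∈ Pp m p) :
    -x ∈ thetaSet c D ε := by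
  have hp2 : p ≠ 2 := by rintro rfl; norm_num at hp4
  have hx' := hx
  rw [Y2_mem] at hx'
  obtain ⟨j, hj1, hj2⟩ := hx'
  obtain ⟨hx0, k, hk⟩ := mem_Pp.mp hxp
  obtain ⟨e, he⟩ := h.2.1
  have hm0 : 0 < m := Nat.pos_of_ne_zero (NeZero.ne m)
  have hD : 0 < D := Nat.pos_of_ne_zero fun h0 => by
    rw [h0, zero_mul] at he
    omega
  have hmD : m / D = e := by rw [he, Nat.mul_div_cancel_left _ hD]
  rw [hmD] at hj1
  have hc4 : (4 : ZMod m) * c = 0 := h.1
  -- all primes dividing `D` are equal to `p`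
  have hDp : ∀ q, q.Prime → q ∣ D → q = p := by
    intro q hq hqD
    by_contra hqp
    have h1 : ((4 * (p ^ k * (e * j)) : ℕ) : ZMod m) = 0 := by
      have h2 : ((p ^ k : ℕ) : ZMod m) * (c + ((e * j : ℕ) : ZMod m)) = 0 := by
        rw [← hj1]
        exact hk
      push_cast at h2 ⊢
      linear_combination 4 * h2 - (p : ZMod m) ^ k * hc4
    rw [ZMod.natCast_eq_zero_iff] at h1
    have h2 : D ∣ 4 * (p ^ k * j) := by
      have h3 : D * e ∣ (4 * (p ^ k * j)) * e := by
        rw [← he]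
        have : (4 * (p ^ k * j)) * e = 4 * (p ^ k * (e * j)) := by ring
        rw [this]
        exact h1
      have he0 : 0 < e := Nat.pos_of_ne_zero fun h0 => by
        rw [h0, mul_zero] at he
        omega
      exact Nat.dvd_of_mul_dvd_mul_right he0 h3
    have h3 := hqD.trans h2
    have hq2 := h.2.2.2 q hq hqD
    rcases (Nat.Prime.dvd_mul hq).mp h3 with h4 | h4
    · have h5 : q ∣ 2 := hq.dvd_of_dvd_pow (show q ∣ 2 ^ 2 from h4)
      exact hq2 ((Nat.prime_dvd_prime_iff_eq hq Nat.prime_two).mp h5)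
    · rcases (Nat.Prime.dvd_mul hq).mp h4 with h5 | h5
      · exact hqp ((Nat.prime_dvd_prime_iff_eq hq hp).mp (hq.dvd_of_dvd_pow h5))
      · have h6 := hj2 q hq hqD
        have h7 : jacobiSym (j : ℤ) q = 0 := by
          haveI : NeZero q := ⟨hq.ne_zero⟩
          rw [jacobiSym.eq_zero_iff_not_coprime]
          intro h8
          have h9 : (q : ℤ) ∣ Int.gcd (j : ℤ) (q : ℤ) :=
            Int.dvd_coe_gcd (Int.natCast_dvd_natCast.mpr h5) (dvd_refl _)
          rw [h8] at h9
          have h10 := Int.natCast_dvd_natCast.mp h9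
          exact hq.one_lt.ne' (Nat.dvd_one.mp h10)
        rw [h7] at h6
        exact (Units.ne_zero (ε q)) h6.symm
  -- hence `c = 0`
  have hDpow : D ∣ p := by
    have h1 := h.2.2.1
    by_cases hD1 : D = 1
    · rw [hD1]
      exact one_dvd _
    · obtain ⟨q, hq, hqD⟩ := Nat.exists_prime_and_dvd hD1
      have hqp := hDp q hq hqD
      subst hqp
      obtain ⟨d, hd⟩ := hqD
      have hd1 : d = 1 := by
        by_contra hd1
        obtain ⟨q', hq', hqd⟩ := Nat.exists_prime_and_dvd hd1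
        have h2 := hDp q' hq' (hqd.trans ⟨q, by rw [hd]; ring⟩)
        subst h2
        have h3 : q' * q' ∣ D := by
          rw [hd]
          exact Nat.mul_dvd_mul_left _ hqd
        exact hq'.one_lt.ne' (Nat.isUnit_iff.mp (h1 q' h3))
      rw [hd, hd1, mul_one]
  have hc : c = 0 := by
    refine eq_zero_of_mul (n := 4) (p := p) (k := k + 1) ?_ ?_ ?_
    · have : Nat.Coprime 2 p := (Nat.coprime_primes Nat.prime_two hp).mpr (Ne.symm hp2)
      exact Nat.Coprime.pow_left 2 this
    · push_cast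
      exact hc4
    · have h2 : ((p * (e * j) : ℕ) : ZMod m) = 0 := by
        rw [ZMod.natCast_eq_zero_iff]
        obtain ⟨d, hd⟩ := hDpow
        rw [hd, he]
        exact ⟨d * j, by ring⟩
      have h1 : ((p ^ k : ℕ) : ZMod m) * (c + ((e * j : ℕ) : ZMod m)) = 0 := by
        rw [← hj1]
        exact hk
      push_cast at h1 h2 ⊢
      rw [pow_succ]
      linear_combination (p : ZMod m) * h1 - (p : ZMod m) ^ k * h2
  subst hc
  have h1 : -x ∈ (thetaSet (0 : ZMod m) D ε).map fun x => -x := Multiset.mem_map_of_mem _ hx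
  rw [thetaSet_neg1 h, neg_zero, Y2_mem] at h1
  rw [Y2_mem]
  obtain ⟨i, hi1, hi2⟩ := h1
  refine ⟨i, hi1, fun q hq hqD => ?_⟩
  rw [hi2 q hq hqD, hDp q hq hqD]
  unfold ng
  rw [if_neg (by omega)]

lemma lamF_thetaSet {p : ℕ} (hp : p.Prime) (hp4 : p % 4 = 1) {c : ZMod m} {D : ℕ}
    (h : Allowed1 m c D) (ε : ℕ → ℤˣ) : lamF m p (oddPart (thetaSet c D ε)) = 0 := by
  have hp2 : p ≠ 2 := by rintro rfl; norm_num at hp4
  rw [lamF_oddPart hp hp2]
  have hnd : (thetaSet c D ε).Nodup := Finset.nodup _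
  refine sum_involution (fun a _ => -a) ?_ ?_ ?_ ?_
  · intro a ha
    have h1 : (thetaSet c D ε).count (-a) = (thetaSet c D ε).count a := by
      classical
      rw [Multiset.count_eq_of_nodup hnd, Multiset.count_eq_of_nodup hnd]
      refine if_congr ⟨fun h2 => ?_, fun h2 => Y2_neg hp hp4 h h2 ha⟩ rfl rfl
      have := Y2_neg hp hp4 h h2 (neg_mem_Pp ha)
      rwa [neg_neg] at this
    rw [h1]
    exact two_zmod _
  · intro a ha _
    exact neg_ne_of_Pp hp hp2 ha
  · intro a ha
    exact neg_mem_Pp ha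
  · intro a _
    exact neg_neg a

lemma lamF_theta {p : ℕ} (hp : p.Prime) (hp4 : p % 4 = 1) {F : ZMod m → ℤ}
    (hF : F ∈ thetaSub1 m) : lamF m p F = 0 := by
  unfold thetaSub1 at hF
  induction hF using AddSubgroup.closure_induction with
  | mem x hx =>
    obtain ⟨c, D, ε, hA, rfl⟩ := hx
    exact lamF_thetaSet hp hp4 hA ε
  | zero => exact map_zero _
  | add x y _ _ hx hy => rw [map_add, hx, hy, add_zero]
  | neg x _ hx => rw [map_neg, hx, neg_zero]

end Pool.Agent.Lib.MP_938ce2_ag_h99y
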