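import Pool.Agent.Lib.MP_938ce2_ag_h99y.Y02
import Pool.Agent.Lib.MP_938ce2_ag_h99v.P04
import Pool.Agent.Lib.MP_938ce2_ag_h99v.T01
import Pool.Agent.Lib.MP_938ce2_ag_h99v.LD

/-!
The class of a pair `r, p`, `r = 3`, `p = 1` modulo `4`, twice of which is a sum of relations.
-/

set_option autoImplicit false
set_option linter.style.haveILetI false
set_option linter.unusedSectionVars false

open Finset

namespace Pool.Agent.Lib.MP_938ce2_ag_h99y

open Pool.Agent.Lib.MP_938ce2_ag_h99 Pool.Agent.Lib.MP_938ce2_ag_h6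
open Pool.Agent.Lib.MP_938ce2_ag_h99t Pool.Agent.Lib.MP_938ce2_ag_h99v

variable {m : ℕ} [NeZero m]

/-- the function at the order `r p` -/
def AP (r p : ℕ) (k : ℤ) : ℤ := th r k + hf p k - 1

/-- the function at the order `r` -/
def BP (r p : ℕ) (k : ℤ) : ℤ := th r k - th r (p * k)

/-- the function at the order `p` -/
def CP (r p : ℕ) (k : ℤ) : ℤ := hf p k - hf p (r * k)

/-- the class of the pair `r, p` -/
noncomputable def EP (m r p : ℕ) [NeZero m] : ZMod m → ℤ :=
  pl m (r * p) (AP r p) - pl m r (BP r p) - pl m p (CP r p)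

private lemma ep_self {p : ℕ} (h : p ≠ 2) : ep p = p := by
  unfold ep
  rw [if_neg h]

private lemma per_mul {f : ℕ} {A : ℤ → ℤ} (h : Per f A) (c : ℤ) : Per f (fun k => A (c * k)) := by
  intro a b hab
  refine h _ _ ?_
  rw [← mul_sub]
  exact dvd_mul_of_dvd_right hab _

private lemma per_of_dvd {f g : ℕ} {A : ℤ → ℤ} (h : Per f A) (hfg : f ∣ g) : Per g A :=
  fun a b hab => h a b ((Int.natCast_dvd_natCast.mpr hfg).trans hab)

lemma th_per' {r : ℕ} (h : r ≠ 2) : Per r (th r) := by
  have := th_per r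
  rwa [ep_self h] at this

lemma hf_per' {p : ℕ} (h : p ≠ 2) : Per p (hf p) := by
  have := hf_per p
  rwa [ep_self h] at this

lemma AP_per {r p : ℕ} (hr : r ≠ 2) (hp : p ≠ 2) : Per (r * p) (AP r p) := by
  intro a b hab
  unfold AP
  rw [per_of_dvd (th_per' hr) (Dvd.intro p rfl) a b hab,
    per_of_dvd (hf_per' hp) (Dvd.intro_left r rfl) a b hab]

lemma BP_per {r p : ℕ} (hr : r ≠ 2) : Per r (BP r p) := by
  intro a b hab
  unfold BP
  have h1 : th r (p * a) = th r (p * b) := per_mul (th_per' hr) p a b hab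
  rw [th_per' hr a b hab, h1]

lemma CP_per {r p : ℕ} (hp : p ≠ 2) : Per p (CP r p) := by
  intro a b hab
  unfold CP
  have h1 : hf p (r * a) = hf p (r * b) := per_mul (hf_per' hp) r a b hab
  rw [hf_per' hp a b hab, h1]

private lemma not_dvd_of {r : ℕ} (hr : r.Prime) {k : ℤ} {f : ℕ} (hrf : r ∣ f)
    (hk : IsCoprime k (f : ℤ)) : ¬ (r : ℤ) ∣ k := by
  intro h
  have h1 := hk.isUnit_of_dvd' h (Int.natCast_dvd_natCast.mpr hrf)
  rw [Int.isUnit_iff] at h1
  have := hr.one_lt
  omega

lemma AP_odd {r p : ℕ} (hr : r.Prime) (hp : p.Prime) (hr4 : r % 4 = 3) (hp2 : p ≠ 2) :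
    OddA (r * p) (AP r p) := by
  intro k hk
  unfold AP
  rw [th_neg_three hr (Or.inr hr4) (not_dvd_of hr (Dvd.intro p rfl) hk),
    hf_neg hp hp2 (not_dvd_of hp (Dvd.intro_left r rfl) hk)]
  ring

lemma BP_odd {r p : ℕ} (hr : r.Prime) (hp : p.Prime) (hr4 : r % 4 = 3) (hrp : r ≠ p) :
    OddA r (BP r p) := by
  intro k hk
  unfold BP
  have h1 := not_dvd_of hr dvd_rfl hk
  have h2 : ¬ (r : ℤ) ∣ p * k := by
    intro h
    rcases (Nat.prime_iff_prime_int.mp hr).dvd_mul.mp h with h3 | h3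
    · exact hrp ((Nat.prime_dvd_prime_iff_eq hr hp).mp (Int.natCast_dvd_natCast.mp h3))
    · exact h1 h3
  rw [mul_neg, th_neg_three hr (Or.inr hr4) h1, th_neg_three hr (Or.inr hr4) h2]
  ring

lemma CP_odd {r p : ℕ} (hr : r.Prime) (hp : p.Prime) (hp2 : p ≠ 2) (hrp : r ≠ p) :
    OddA p (CP r p) := by
  intro k hk
  unfold CP
  have h1 := not_dvd_of hp dvd_rfl hk
  have h2 : ¬ (p : ℤ) ∣ r * k := by
    intro h
    rcases (Nat.prime_iff_prime_int.mp hp).dvd_mul.mp h with h3 | h3
    · exact hrp.symm ((Nat.prime_dvd_prime_iff_eq hp hr).mp (Int.natCast_dvd_natCast.mp h3))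
    · exact h1 h3
  rw [mul_neg, hf_neg hp hp2 h1, hf_neg hp hp2 h2]
  ring

/-- twice the class is a sum of relations -/
lemma EP_double {r p : ℕ} (hr : r.Prime) (hp : p.Prime) (hr4 : r % 4 = 3) (hp2 : p ≠ 2)
    (hrp : r ≠ p) (hm : r * p ∣ m) : EP m r p + EP m r p ∈ relSub m := by
  have hr2 : r ≠ 2 := by rintro rfl; omega
  have h1 : pl m (ep p * r) (fun k => 2 * th r k - 1) - pl m r (fun k => (2 * th r k - 1) -
      (2 * th r (p * k) - 1)) ∈ relSub m := by
    refine peel_pl hp (fun h => hrp ((Nat.prime_dvd_prime_iff_eq hp hr).mp h).symm) ?_ ?_ ?_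
    · rw [ep_self hp2, mul_comm]
      exact hm
    · intro a b hab
      have := th_per' hr2 a b hab
      simp only [this]
    · intro k hk
      have := th_neg_three hr (Or.inr hr4) (not_dvd_of hr dvd_rfl hk)
      simp only [this]
      ring
  have h2 : pl m (ep r * p) (fun k => 2 * hf p k - 1) - pl m p (fun k => (2 * hf p k - 1) -
      (2 * hf p (r * k) - 1)) ∈ relSub m := by
    refine peel_pl hr (fun h => hrp ((Nat.prime_dvd_prime_iff_eq hr hp).mp h)) ?_ ?_ ?_
    · rw [ep_self hr2]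
      exact hm
    · intro a b hab
      have := hf_per' hp2 a b hab
      simp only [this]
    · intro k hk
      have := hf_neg hp hp2 (not_dvd_of hp dvd_rfl hk)
      simp only [this]
      ring
  have h3 := (relSub m).add_mem h1 h2
  rw [ep_self hp2, ep_self hr2] at h3
  have e : EP m r p + EP m r p = pl m (p * r) (fun k => 2 * th r k - 1) -
      pl m r (fun k => (2 * th r k - 1) - (2 * th r (p * k) - 1)) +
      (pl m (r * p) (fun k => 2 * hf p k - 1) - pl m p (fun k => (2 * hf p k - 1) -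
      (2 * hf p (r * k) - 1))) := by
    unfold EP
    rw [mul_comm p r]
    have e1 : pl m (r * p) (AP r p) + pl m (r * p) (AP r p) =
        pl m (r * p) (fun k => 2 * th r k - 1) + pl m (r * p) (fun k => 2 * hf p k - 1) := by
      rw [← pl_add, ← pl_add]
      congr 1
      funext k
      unfold AP
      ring
    have e2 : pl m r (BP r p) + pl m r (BP r p) =
        pl m r (fun k => (2 * th r k - 1) - (2 * th r (p * k) - 1)) := by
      rw [← pl_add]
      congr 1
      funext k
      unfold BP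
      ring
    have e3 : pl m p (CP r p) + pl m p (CP r p) =
        pl m p (fun k => (2 * hf p k - 1) - (2 * hf p (r * k) - 1)) := by
      rw [← pl_add]
      congr 1
      funext k
      unfold CP
      ring
    rw [← e2, ← e3]
    have : pl m (r * p) (AP r p) - pl m r (BP r p) - pl m p (CP r p) +
        (pl m (r * p) (AP r p) - pl m r (BP r p) - pl m p (CP r p)) =
        (pl m (r * p) (AP r p) + pl m (r * p) (AP r p)) - (pl m r (BP r p) + pl m r (BP r p)) -
        (pl m p (CP r p) + pl m p (CP r p)) := by abel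
    rw [this, e1]
    abel
  rw [e]
  exact h3

lemma EP_odd {r p : ℕ} (hr : r.Prime) (hp : p.Prime) (hr4 : r % 4 = 3) (hp2 : p ≠ 2)
    (hrp : r ≠ p) (hm : r * p ∣ m) : OddF (EP m r p) := by
  have hr2 : r ≠ 2 := by rintro rfl; omega
  unfold EP
  exact ((pl_odd hm (AP_per hr2 hp2) (AP_odd hr hp hr4 hp2)).sub
    (pl_odd ((Dvd.intro p rfl).trans hm) (BP_per hr2) (BP_odd hr hp hr4 hrp))).sub
    (pl_odd ((Dvd.intro_left r rfl).trans hm) (CP_per hp2) (CP_odd hr hp hp2 hrp))

lemma tateF_of_double {F : ZMod m → ℤ} (h : TateF (F + F)) : TateF F := by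
  intro t
  have h1 := h t
  simp only [Pi.add_apply, add_mul, sum_add_distrib] at h1
  omega

lemma EP_tate {r p : ℕ} (hr : r.Prime) (hp : p.Prime) (hr4 : r % 4 = 3) (hp2 : p ≠ 2)
    (hrp : r ≠ p) (hm : r * p ∣ m) : TateF (EP m r p) :=
  tateF_of_double (TateF_of_mem_relSub (EP_double hr hp hr4 hp2 hrp hm))

lemma EP_supp {r p : ℕ} {a : ZMod m} (h : EP m r p a ≠ 0) :
    addOrderOf a = r * p ∨ addOrderOf a = r ∨ addOrderOf a = p := by
  by_contra h1
  push Not at h1
  apply h
  unfold EP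
  rw [Pi.sub_apply, Pi.sub_apply, pl_of_ne h1.1, pl_of_ne h1.2.1, pl_of_ne h1.2.2]
  rfl

private lemma th_one' {r : ℕ} : th r 1 = 1 := by
  unfold th ch
  split_ifs with h h1 h1
  · rfl
  · exact absurd (by decide) h1
  · rfl
  · exact absurd (jacobiSym.one_left r) h1

lemma EP_PX {X : AddSubgroup (ZMod m → ℤ)} {r p : ℕ} (hr : r.Prime) (hp : p.Prime)
    (hr4 : r % 4 = 3) (hp2 : p ≠ 2) (hrp : r ≠ p) (hm : r * p ∣ m) (hX : EP m r p ∈ X) :
    PX X r p := by
  have hr2 : r ≠ 2 := by rintro rfl; omega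
  have er := ep_self hr2
  have epp := ep_self hp2
  have hr1 := hr.one_lt
  have hp1 := hp.one_lt
  refine ⟨EP m r p, ⟨AddSubgroup.mem_sup_left hX, EP_odd hr hp hr4 hp2 hrp hm,
    EP_tate hr hp hr4 hp2 hrp hm⟩, ?_, ?_⟩
  · rw [er, epp]
    intro a ha
    have h1 : addOrderOf a ∣ r * p := by
      rcases EP_supp ha with h | h | h
      · rw [h]
      · rw [h]
        exact Dvd.intro p rfl
      · rw [h]
        exact Dvd.intro_left r rfl
    exact ⟨h1.trans (Nat.dvd_lcm_right _ _), Nat.le_of_dvd (Nat.mul_pos hr.pos hp.pos) h1⟩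
  · rw [er, epp]
    obtain ⟨u, v, huv⟩ := Nat.isCoprime_iff_coprime.mpr ((Nat.coprime_primes hr hp).mpr hrp)
    set k : ℤ := v * p - u * r with hk
    have hk1 : (r : ℤ) ∣ k - 1 := ⟨-2 * u, by rw [hk]; linear_combination huv⟩
    have hk2 : (p : ℤ) ∣ k + 1 := ⟨2 * v, by rw [hk]; linear_combination -huv⟩
    refine ⟨k, hk1, hk2, ?_⟩
    have hkc : IsCoprime k ((r * p : ℕ) : ℤ) := by
      push_cast
      apply IsCoprime.mul_right
      · obtain ⟨c, hc⟩ := hk1
        exact ⟨1, -c, by linear_combination hc⟩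
      · obtain ⟨c, hc⟩ := hk2
        exact ⟨-1, c, by linear_combination -hc⟩
    have hval : ∀ j : ℤ, IsCoprime j ((r * p : ℕ) : ℤ) →
        EP m r p (pt m (r * p) j) = AP r p j := by
      intro j hj
      unfold EP
      have ho := addOrderOf_pt hm hj
      rw [Pi.sub_apply, Pi.sub_apply, pl_pt hm (AP_per hr2 hp2) hj, pl_of_ne, pl_of_ne]
      · ring
      · rw [ho]
        intro h
        have := Nat.eq_of_mul_eq_mul_right hp.pos (h.trans (one_mul p).symm)
        omega
      · rw [ho]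
        intro h
        have := Nat.eq_of_mul_eq_mul_left hr.pos (h.trans (mul_one r).symm)
        omega
    rw [hval 1 isCoprime_one_left, hval k hkc]
    have h1 : th r k = 1 := by
      rw [th_per' hr2 k 1 hk1, th_one']
    have h2 : hf p 1 = 1 := by
      unfold hf
      rw [epp]
      have h3 : (1 : ℤ) % (p : ℤ) = 1 := Int.emod_eq_of_lt (by norm_num) (by exact_mod_cast hp1)
      rw [h3, if_pos]
      have := hp.two_le
      omega
    have h3 : hf p k = 0 := by
      have h4 : (p : ℤ) ∣ k - (-1) := by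
        rw [sub_neg_eq_add]
        exact hk2
      rw [hf_per' hp2 k (-1) h4, hf_neg hp hp2 (k := 1), h2]
      · norm_num
      · intro h5
        have := Int.le_of_dvd (by norm_num) h5
        omega
    unfold AP
    rw [th_one', h1, h2, h3]
    decide

end Pool.Agent.Lib.MP_938ce2_ag_h99y
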