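import Pool.Agent.Lib.MP_938ce2_ag_h99y.Y03
import Mathlib.NumberTheory.LegendreSymbol.GaussEisensteinLemmas

/-!
The half sums of the class of a pair.
-/

set_option autoImplicit false
set_option linter.style.haveILetI false
set_option linter.unusedSectionVars false

open Finset

namespace Pool.Agent.Lib.MP_938ce2_ag_h99y

open Pool.Agent.Lib.MP_938ce2_ag_h99 Pool.Agent.Lib.MP_938ce2_ag_h6
open Pool.Agent.Lib.MP_938ce2_ag_h99t Pool.Agent.Lib.MP_938ce2_ag_h99v

variable {m : ℕ} [NeZero m]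

/-- functions which vanish at the elements of order a power of `p` -/
lemma lamF_eq_zero {p : ℕ} {F : ZMod m → ℤ} (h : ∀ a ∈ Pp m p, F a = 0) : lamF m p F = 0 := by
  rw [lamF_apply]
  refine sum_eq_zero fun a ha => ?_
  rw [h a ha]
  simp

/-- the order of an element of `Pp m p` is a power of `p`, not one -/
lemma order_Pp {p : ℕ} (hp : p.Prime) {a : ZMod m} (h : a ∈ Pp m p) :
    ∃ k : ℕ, addOrderOf a = p ^ (k + 1) := by
  obtain ⟨h0, k, hk⟩ := mem_Pp.mp h
  have h1 : addOrderOf a ∣ p ^ k := by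
    rw [addOrderOf_dvd_iff_nsmul_eq_zero, nsmul_eq_mul]
    exact hk
  obtain ⟨j, -, hj⟩ := (Nat.dvd_prime_pow hp).mp h1
  rcases j with - | j
  · exfalso
    rw [pow_zero, AddMonoid.addOrderOf_eq_one_iff] at hj
    exact h0 hj
  · exact ⟨j, hj⟩

lemma mem_Pp_of_order {p : ℕ} (hp : p.Prime) {a : ZMod m} (h : addOrderOf a = p) :
    a ∈ Pp m p := by
  rw [mem_Pp]
  refine ⟨?_, 1, ?_⟩
  · rintro rfl
    rw [addOrderOf_zero] at h
    exact hp.one_lt.ne h
  · rw [pow_one, ← nsmul_eq_mul]
    have := addOrderOf_nsmul_eq_zero a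
    rwa [h] at this

private lemma ep_self {p : ℕ} (h : p ≠ 2) : ep p = p := by
  unfold ep
  rw [if_neg h]

/-- the half sum of a function placed at the order `p` -/
lemma lamF_pl {p : ℕ} (hp : p.Prime) (hpm : p ∣ m) {C : ℤ → ℤ} (hC : Per p C) :
    lamF m p (pl m p C) = ∑ k ∈ Ico 1 p, if 2 * k < p then ((C k : ℤ) : ZMod 2) else 0 := by
  have hm0 : 0 < m := Nat.pos_of_ne_zero (NeZero.ne m)
  have hmp : 0 < m / p := Nat.div_pos (Nat.le_of_dvd hm0 hpm) hp.pos
  have hcop : ∀ k ∈ Ico 1 p, IsCoprime ((k : ℕ) : ℤ) (p : ℤ) := by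
    intro k hk
    rw [mem_Ico] at hk
    rw [Nat.isCoprime_iff_coprime, Nat.coprime_comm]
    exact (Nat.Prime.coprime_iff_not_dvd hp).mpr fun h => by
      have := Nat.le_of_dvd (by omega) h
      omega
  have hval : ∀ k ∈ Ico 1 p, (pt m p ((k : ℕ) : ℤ)).val = m / p * k := by
    intro k hk
    rw [mem_Ico] at hk
    have h1 : pt m p ((k : ℕ) : ℤ) = ((m / p * k : ℕ) : ZMod m) := by
      unfold pt
      rw [← Nat.cast_mul, Int.cast_natCast]
    rw [h1, ZMod.val_natCast]
    apply Nat.mod_eq_of_lt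
    calc m / p * k < m / p * p := Nat.mul_lt_mul_of_pos_left hk.2 hmp
      _ = m := Nat.div_mul_cancel hpm
  have hinj : Set.InjOn (fun k : ℕ => pt m p ((k : ℕ) : ℤ)) (Ico 1 p : Finset ℕ) := by
    intro a ha b hb hab
    simp only at hab
    have h1 := hval a ha
    have h2 := hval b hb
    rw [hab, h2] at h1
    exact (Nat.eq_of_mul_eq_mul_left hmp h1).symm
  have himg : (Ico 1 p).image (fun k : ℕ => pt m p ((k : ℕ) : ℤ)) ⊆ Pp m p := by
    intro a ha
    rw [mem_image] at ha
    obtain ⟨k, hk, rfl⟩ := ha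
    exact mem_Pp_of_order hp (addOrderOf_pt hpm (hcop k hk))
  rw [lamF_apply, ← sum_subset himg, sum_image hinj]
  · refine sum_congr rfl fun k hk => ?_
    rw [pl_pt hpm hC (hcop k hk)]
    unfold hw
    rw [hval k hk]
    have h1 : 2 * (m / p * k) < m ↔ 2 * k < p := by
      have h2 : m / p * p = m := Nat.div_mul_cancel hpm
      constructor
      · intro h
        have h3 : m / p * (2 * k) < m / p * p := by rw [h2]; linarith
        exact Nat.lt_of_mul_lt_mul_left h3
      · intro h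
        have h3 : m / p * (2 * k) < m / p * p := Nat.mul_lt_mul_of_pos_left h hmp
        linarith
    by_cases h : 2 * k < p
    · rw [if_pos h, if_pos (h1.mpr h), one_mul]
    · rw [if_neg h, if_neg (fun h2 => h (h1.mp h2)), zero_mul]
  · intro a ha hna
    have h1 : pl m p C a = 0 := by
      apply pl_of_ne
      intro h
      apply hna
      obtain ⟨k, hk, rfl⟩ := exists_pt h
      rw [mem_image]
      have hp0 : (0 : ℤ) < p := by exact_mod_cast hp.pos
      have h2 : 0 ≤ k % (p : ℤ) := Int.emod_nonneg _ hp0.ne'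
      have h3 : k % (p : ℤ) < p := Int.emod_lt_of_pos _ hp0
      refine ⟨(k % (p : ℤ)).toNat, ?_, ?_⟩
      · rw [mem_Ico]
        constructor
        · by_contra h4
          have h5 : k % (p : ℤ) = 0 := by omega
          have h6 : (p : ℤ) ∣ k := Int.dvd_of_emod_eq_zero h5
          have h7 := hk.isUnit_of_dvd' h6 dvd_rfl
          rw [Int.isUnit_iff] at h7
          have := hp.one_lt
          omega
        · omega
      · apply pt_congr hpm
        rw [Int.toNat_of_nonneg h2]
        refine ⟨-(k / p), ?_⟩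
        have := Int.emod_add_mul_ediv k (p : ℤ)
        linear_combination this
    rw [h1]
    simp

/-- Gauss' lemma -/
lemma gauss {r p : ℕ} (hp : p.Prime) (hp2 : p ≠ 2) (hc : ch p r = -1) :
    ∑ k ∈ Ico 1 p, (if 2 * k < p then ((CP r p k : ℤ) : ZMod 2) else 0) = 1 := by
  haveI : Fact p.Prime := ⟨hp⟩
  have hodd : p % 2 = 1 := hp.eq_two_or_odd.resolve_left hp2
  have epp := ep_self hp2
  have hr0 : ((r : ℤ) : ZMod p) ≠ 0 := by
    intro h
    have h1 : (p : ℤ) ∣ (r : ℤ) := (ZMod.intCast_zmod_eq_zero_iff_dvd _ _).mp h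
    have h2 : ch p r = ch p 0 := ch_congr (by rw [epp, sub_zero]; exact h1)
    unfold ch at h2 hc
    rw [if_neg hp2] at hc h2
    rw [if_neg hp2, hc, jacobiSym.zero_left hp.one_lt] at h2
    norm_num at h2
  have h1 := ZMod.gauss_lemma (p := p) (a := (r : ℤ)) hp2 hr0
  have h2 : legendreSym p (r : ℤ) = -1 := by
    rw [jacobiSym.legendreSym.to_jacobiSym]
    unfold ch at hc
    rw [if_neg hp2] at hc
    exact hc
  rw [h2] at h1
  set S : Finset ℕ := {x ∈ Ico 1 (p / 2).succ | p / 2 < (((r : ℤ) : ZMod p) * (x : ZMod p)).val}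
    with hS
  have h3 : S.card % 2 = 1 := by
    rcases Nat.even_or_odd S.card with h | h
    · exfalso
      have : ((-1 : ℤ)) ^ S.card = 1 := h.neg_one_pow
      rw [this] at h1
      norm_num at h1
    · exact Nat.odd_iff.mp h
  have h4 : ∑ k ∈ Ico 1 p, (if 2 * k < p then ((CP r p k : ℤ) : ZMod 2) else 0) =
      ∑ k ∈ Ico 1 p, if k ∈ S then 1 else 0 := by
    refine sum_congr rfl fun k hk => ?_
    rw [mem_Ico] at hk
    have hp0 : (0 : ℤ) < p := by exact_mod_cast hp.pos
    by_cases hk2 : 2 * k < p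
    · rw [if_pos hk2]
      have e1 : hf p (k : ℤ) = 1 := by
        unfold hf
        rw [epp, if_pos]
        have : ((k : ℕ) : ℤ) % (p : ℤ) = k := Int.emod_eq_of_lt (by omega) (by omega)
        rw [this]
        exact_mod_cast hk2
      have e2 : (((r : ℤ) : ZMod p) * (k : ZMod p)).val = (((r : ℤ) * k) % (p : ℤ)) := by
        have : ((r : ℤ) : ZMod p) * (k : ZMod p) = (((r : ℤ) * k : ℤ) : ZMod p) := by
          push_cast
          ring
        rw [this, ZMod.val_intCast]
      have e3 : k ∈ S ↔ ¬ (2 * (((r : ℤ) * k) % (p : ℤ)) < p) := by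
        rw [hS, mem_filter, mem_Ico, ← e2]
        constructor
        · rintro ⟨-, h5⟩ h6
          have : (2 * (((r : ℤ) : ZMod p) * (k : ZMod p)).val : ℤ) < p := h6
          omega
        · intro h6
          refine ⟨⟨hk.1, by omega⟩, ?_⟩
          by_contra h5
          apply h6
          have : 2 * (((r : ℤ) : ZMod p) * (k : ZMod p)).val < p := by omega
          exact_mod_cast this
      unfold CP
      rw [e1]
      by_cases h7 : 2 * (((r : ℤ) * k) % (p : ℤ)) < p
      · rw [if_neg (fun h => e3.mp h h7)]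
        have : hf p ((r : ℤ) * k) = 1 := by
          unfold hf
          rw [epp, if_pos h7]
        rw [this]
        rfl
      · rw [if_pos (e3.mpr h7)]
        have : hf p ((r : ℤ) * k) = 0 := by
          unfold hf
          rw [epp, if_neg h7]
        rw [this]
        rfl
    · rw [if_neg hk2, if_neg]
      intro h5
      rw [hS, mem_filter, mem_Ico] at h5
      omega
  rw [h4, ← sum_filter, sum_const, nsmul_eq_mul, mul_one]
  have h5 : (Ico 1 p).filter (· ∈ S) = S := by
    ext k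
    rw [mem_filter]
    constructor
    · exact fun h => h.2
    · intro h
      refine ⟨?_, h⟩
      rw [hS, mem_filter, mem_Ico] at h
      rw [mem_Ico]
      omega
  rw [h5, ← ZMod.natCast_mod, h3]
  rfl

/-- the half sum at `p` -/
lemma lamF_EP_self {r p : ℕ} (hr : r.Prime) (hp : p.Prime) (hp2 : p ≠ 2) (hrp : r ≠ p)
    (hm : r * p ∣ m) (hc : ch p r = -1) : lamF m p (EP m r p) = 1 := by
  have h1 : lamF m p (pl m (r * p) (AP r p)) = 0 := by
    apply lamF_eq_zero
    intro a ha
    apply pl_of_ne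
    intro h
    obtain ⟨k, hk⟩ := order_Pp hp ha
    rw [h] at hk
    have h2 : r ∣ p ^ (k + 1) := (Dvd.intro p rfl).trans (dvd_of_eq hk)
    exact hrp ((Nat.prime_dvd_prime_iff_eq hr hp).mp (hr.dvd_of_dvd_pow h2))
  have h2 : lamF m p (pl m r (BP r p)) = 0 := by
    apply lamF_eq_zero
    intro a ha
    apply pl_of_ne
    intro h
    obtain ⟨k, hk⟩ := order_Pp hp ha
    rw [h] at hk
    have h2 : r ∣ p ^ (k + 1) := dvd_of_eq hk
    exact hrp ((Nat.prime_dvd_prime_iff_eq hr hp).mp (hr.dvd_of_dvd_pow h2))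
  have h3 : lamF m p (pl m p (CP r p)) = 1 := by
    rw [lamF_pl hp ((Dvd.intro_left r rfl).trans hm) (CP_per hp2)]
    exact gauss hp hp2 hc
  unfold EP
  rw [map_sub, map_sub, h1, h2, h3]
  decide

/-- the half sum at the other primes -/
lemma lamF_EP_ne {r p p' : ℕ} (hr : r.Prime) (hp : p.Prime) (hp' : p'.Prime) (h1 : p' ≠ r)
    (h2 : p' ≠ p) : lamF m p' (EP m r p) = 0 := by
  apply lamF_eq_zero
  intro a ha
  by_contra h
  obtain ⟨k, hk⟩ := order_Pp hp' ha
  have h3 : ∀ s : ℕ, s.Prime → s ∣ p' ^ (k + 1) → s = p' := fun s hs hsd =>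
    (Nat.prime_dvd_prime_iff_eq hs hp').mp (hs.dvd_of_dvd_pow hsd)
  rcases EP_supp h with h4 | h4 | h4
  · rw [h4] at hk
    exact h1 (h3 r hr ((Dvd.intro p rfl).trans (dvd_of_eq hk))).symm
  · rw [h4] at hk
    exact h1 (h3 r hr (dvd_of_eq hk)).symm
  · rw [h4] at hk
    exact h2 (h3 p hp (dvd_of_eq hk)).symm

end Pool.Agent.Lib.MP_938ce2_ag_h99y
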