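import Pool.Agent.Lib.MP_938ce2_ag_h99x.Final7

/-!
The classes of all good sets, for every group which contains the theta functions.
-/

set_option autoImplicit false
set_option linter.style.haveILetI false
set_option linter.unusedSectionVars false

open Finset

namespace Pool.Agent.Lib.MP_938ce2_ag_h99y

open Pool.Agent.Lib.MP_938ce2_ag_h99 Pool.Agent.Lib.MP_938ce2_ag_h6
open Pool.Agent.Lib.MP_938ce2_ag_h99t Pool.Agent.Lib.MP_938ce2_ag_h99v
open Pool.Agent.Lib.MP_938ce2_ag_h99x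

/-- `X` contains the theta functions -/
def HasTh {m : ℕ} [NeZero m] (X : AddSubgroup (ZMod m → ℤ)) : Prop :=
  ∀ F ∈ thetaSub1 m, TateF F → F ∈ X

private lemma fJ_pos_aux {J : Finset ℕ} (h : PJ J) : 0 < fJ J :=
  Finset.prod_pos fun p hp => ep_pos (h p hp)

/-- Strong induction on the number of elements `1 mod 4` of `S`. -/
theorem excP_gen : ∀ (n : ℕ) (S : Finset ℕ), (S.filter (· % 4 = 1)).card = n → PJ S →
    S.Nonempty → Even S.card → Gd S →
    ∃ N ≠ 0, ∀ (M : ℕ) [NeZero M], N ∣ M → ∀ X : AddSubgroup (ZMod M → ℤ), HasTh X →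
      ExcP X S := by
  intro n
  induction n using Nat.strong_induction_on with
  | _ n ih =>
  intro S hcard hPJ hne hev hG
  classical
  obtain ⟨r, ri, hA⟩ := exists_aux hPJ hG
  set P := S.filter (· % 4 = 1) with hP
  have hT : PJ (LP S r P) := by
    intro q hq
    rcases Finset.mem_union.1 hq with h | h
    · exact hPJ q h
    · obtain ⟨p, hp, rfl⟩ := Finset.mem_image.1 h
      exact hA.rprime p hp
  have hlev : ∀ L : Finset ℕ, ∃ N : ℕ, N ≠ 0 ∧ (L ⊆ LP S r P → (∃ p ∈ P, r p ∈ L) →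
      (∀ p ∈ P, ¬ (p ∈ L ∧ r p ∈ L)) → Even L.card →
      ∀ (M : ℕ) [NeZero M], N ∣ M → ∀ X : AddSubgroup (ZMod M → ℤ), HasTh X → ExcP X L) := by
    intro L
    by_cases hL : L ⊆ LP S r P ∧ (∃ p ∈ P, r p ∈ L) ∧
      (∀ p ∈ P, ¬ (p ∈ L ∧ r p ∈ L)) ∧ Even L.card
    · obtain ⟨h1, h2, h3, h4⟩ := hL
      obtain ⟨p0, hp0, hrp0⟩ := h2
      have hmem4 : ∀ p ∈ L, p % 4 = 1 → p ∈ P := by
        intro p hp hp4
        rcases Finset.mem_union.1 (h1 hp) with h | h
        · exact Finset.mem_filter.2 ⟨h, hp4⟩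
        · obtain ⟨p', hp', rfl⟩ := Finset.mem_image.1 h
          have := hA.r3 p' hp'
          omega
      have hlt : (L.filter (· % 4 = 1)).card < n := by
        have hsub : L.filter (· % 4 = 1) ⊆ P.erase p0 := by
          intro p hp
          obtain ⟨hpL, hp4⟩ := Finset.mem_filter.1 hp
          refine Finset.mem_erase.2 ⟨?_, hmem4 p hpL hp4⟩
          rintro rfl
          exact h3 p hp0 ⟨hpL, hrp0⟩
        have h5 := Finset.card_le_card hsub
        rw [Finset.card_erase_of_mem hp0] at h5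
        have h6 : 0 < P.card := Finset.card_pos.2 ⟨p0, hp0⟩
        omega
      have hGL : Gd L := by
        intro p hp hp4 x hx hxp
        have hpP := hmem4 p hp hp4
        rcases Finset.mem_union.1 (h1 hx) with h | h
        · exact hA.good p hpP x h hxp
        · obtain ⟨p', hp', rfl⟩ := Finset.mem_image.1 h
          refine hA.rr' p hpP p' hp' ?_
          rintro rfl
          exact h3 p' hp' ⟨hp, hx⟩
      obtain ⟨N, hN, hN'⟩ := ih _ hlt L rfl (hT.mono h1) ⟨_, hrp0⟩ h4 hGL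
      exact ⟨N, hN, fun _ _ _ _ => hN'⟩
    · exact ⟨1, one_ne_zero, fun h1 h2 h3 h4 => absurd ⟨h1, h2, h3, h4⟩ hL⟩
  choose NL hNL0 hNL using hlev
  refine ⟨(2 * fJ (LP S r P)) * ∏ L ∈ (LP S r P).powerset, NL L, ?_, ?_⟩
  · refine mul_ne_zero (mul_ne_zero two_ne_zero (fJ_pos_aux hT).ne') ?_
    exact Finset.prod_ne_zero_iff.2 fun L _ => hNL0 L
  · intro M _ hM X hXT
    have hM1 : 2 * fJ (LP S r P) ∣ M := (Dvd.intro _ rfl).trans hM
    have hM2 : ∏ L ∈ (LP S r P).powerset, NL L ∣ M := (Dvd.intro_left _ rfl).trans hM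
    have h2M : 2 ∣ M := (Dvd.intro _ rfl).trans hM1
    have hfM : fJ (LP S r P) ∣ M := (Dvd.intro_left _ rfl).trans hM1
    obtain ⟨x0, hx0⟩ := hne
    obtain ⟨F, hF⟩ := init (X := X) hXT hA hfM hx0 hev
    have hX : ∀ L, L ⊆ LP S r P → (∃ p ∈ P, r p ∈ L) → (∀ p ∈ P, ¬ (p ∈ L ∧ r p ∈ L)) →
        Even L.card → ExcP X L := by
      intro L h1 h2 h3 h4
      exact hNL L h1 h2 h3 h4 M ((Finset.dvd_prod_of_mem _ (Finset.mem_powerset.2 h1)).trans hM2)
        X hXT
    obtain ⟨F', hF', hs⟩ := descend hA hfM hx0 hX M F hF fun a _ _ => by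
      have h1 : addOrderOf a ≤ Nat.card (ZMod M) := addOrderOf_le_card
      rwa [Nat.card_zmod] at h1
    exact excP_of_st hA hfM hx0 hF' hs

/-- from the class of the set `{p, q}` to the class of the pair -/
theorem PX.of_excP {m : ℕ} [NeZero m] {X : AddSubgroup (ZMod m → ℤ)} {p q : ℕ} (hp : p.Prime)
    (hq : q.Prime) (hpq : p ≠ q) (hm : ep p * ep q ∣ m) (h : ExcP X {p, q}) : PX X p q := by
  obtain ⟨E, hE, hsup, x0, hx0, hodd⟩ := h
  have hL : PJ {p, q} := by
    intro r hr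
    simp only [mem_insert, mem_singleton] at hr
    rcases hr with rfl | rfl
    · exact hp
    · exact hq
  have hf : fJ {p, q} = ep p * ep q := by
    unfold fJ
    rw [prod_pair hpq]
  have hcop : IsCoprime (ep p : ℤ) (ep q : ℤ) := by
    rw [Nat.isCoprime_iff_coprime, coprime_ep_iff hq]
    intro h1
    have h2 : q ∣ p := by
      by_cases h3 : p = 2
      · subst h3
        exact hq.dvd_of_dvd_pow (show q ∣ 2 ^ 2 from h1)
      · unfold ep at h1
        rwa [if_neg h3] at h1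
    exact hpq ((Nat.prime_dvd_prime_iff_eq hq hp).mp h2).symm
  obtain ⟨u, v, huv⟩ := hcop
  set k : ℤ := v * (ep q : ℤ) - u * (ep p : ℤ) with hk
  have hk1 : (ep p : ℤ) ∣ k - 1 := ⟨-2 * u, by rw [hk]; linear_combination huv⟩
  have hk2 : (ep q : ℤ) ∣ k + 1 := ⟨2 * v, by rw [hk]; linear_combination -huv⟩
  rw [hf] at hsup
  refine ⟨E, hE, hsup, k, hk1, hk2, ?_⟩
  have hv : ∀ (ε : ℕ → ℤˣ) (t : ℤ), (ep p : ℤ) ∣ t - (ε p : ℤ) → (ep q : ℤ) ∣ t - (ε q : ℤ) →
      Pool.Agent.Lib.MP_938ce2_ag_h99x.val E {p, q} ε = E (pt m (ep p * ep q) t) := by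
    intro ε t h1 h2
    unfold Pool.Agent.Lib.MP_938ce2_ag_h99x.val
    rw [hf]
    congr 1
    symm
    apply pt_congr hm
    rw [← hf]
    apply cr_unique hL
    intro r hr
    simp only [mem_insert, mem_singleton] at hr
    rcases hr with rfl | rfl
    · exact h1
    · exact h2
  simp only [mem_insert, mem_singleton] at hx0
  rcases hx0 with rfl | rfl
  · have he : ({x0, q} : Finset ℕ).erase x0 = {q} := by
      rw [erase_insert_eq_erase, erase_eq_of_notMem (by simpa using hpq)]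
    unfold Om0 at hodd
    rw [he, show (({q} : Finset ℕ).powerset) = {∅, {q}} from rfl, sum_pair (by simp)] at hodd
    rwa [hv (sJ ∅) 1 (by simp [sJ]) (by simp [sJ]),
      hv (sJ {q}) k (by simpa [sJ, hpq] using hk1) (by simpa [sJ] using hk2)] at hodd
  · have he : ({p, x0} : Finset ℕ).erase x0 = {p} := by
      rw [pair_comm, erase_insert_eq_erase, erase_eq_of_notMem (by simpa using Ne.symm hpq)]
    have hneg : E (pt m (ep p * ep x0) (-k)) = - E (pt m (ep p * ep x0) k) := by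
      rw [pt_neg, hE.odd]
    unfold Om0 at hodd
    rw [he, show (({p} : Finset ℕ).powerset) = {∅, {p}} from rfl, sum_pair (by simp)] at hodd
    rw [hv (sJ ∅) 1 (by simp [sJ]) (by simp [sJ]),
      hv (sJ {p}) (-k) (by
        have : -k - ((sJ {p} p : ℤˣ) : ℤ) = -(k - 1) := by
          simp [sJ]
          ring
        rw [this]
        exact (dvd_neg).2 hk1) (by
        have : -k - ((sJ {p} x0 : ℤˣ) : ℤ) = -(k + 1) := by
          simp [sJ, Ne.symm hpq]
          ring
        rw [this]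
        exact (dvd_neg).2 hk2), hneg] at hodd
    have h3 : E (pt m (ep p * ep x0) 1) + E (pt m (ep p * ep x0) k) =
        E (pt m (ep p * ep x0) 1) + -E (pt m (ep p * ep x0) k) +
          2 * E (pt m (ep p * ep x0) k) := by ring
    rw [h3]
    exact hodd.add_even (even_two_mul _)

/-- good pairs -/
theorem PX_good {p q : ℕ} (hp : p.Prime) (hq : q.Prime) (hpq : p ≠ q) (hG : Gd {p, q}) :
    ∃ N ≠ 0, ∀ (M : ℕ) [NeZero M], N ∣ M → ∀ X : AddSubgroup (ZMod M → ℤ), HasTh X →
      PX X p q := by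
  have hL : PJ {p, q} := by
    intro r hr
    simp only [mem_insert, mem_singleton] at hr
    rcases hr with rfl | rfl
    · exact hp
    · exact hq
  obtain ⟨N, hN, hN'⟩ := excP_gen _ {p, q} rfl hL (by simp) (by rw [card_pair hpq]; decide) hG
  refine ⟨N * (ep p * ep q), mul_ne_zero hN (mul_ne_zero (ep_pos hp).ne' (ep_pos hq).ne'), ?_⟩
  intro M _ hM X hX
  exact PX.of_excP hp hq hpq ((Dvd.intro_left _ rfl).trans hM) (hN' M ((Dvd.intro _ rfl).trans hM) X hX)

end Pool.Agent.Lib.MP_938ce2_ag_h99y
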