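import Pool.Agent.Lib.MP_938ce2_ag_h99y.Y04
import Pool.Agent.Lib.MP_938ce2_ag_h99y.Y05

/-!
The groups `X0 M B` and `XB M r B`, and the classes of the pairs.
-/

set_option autoImplicit false
set_option linter.style.haveILetI false
set_option linter.unusedSectionVars false

open Finset

namespace Pool.Agent.Lib.MP_938ce2_ag_h99y

open Pool.Agent.Lib.MP_938ce2_ag_h99 Pool.Agent.Lib.MP_938ce2_ag_h6
open Pool.Agent.Lib.MP_938ce2_ag_h99t Pool.Agent.Lib.MP_938ce2_ag_h99v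
open Pool.Agent.Lib.MP_938ce2_ag_h99x

/-- elements of the class group with half sums zero at the primes of `B` -/
noncomputable def X0 (M : ℕ) [NeZero M] (B : Finset ℕ) : AddSubgroup (ZMod M → ℤ) where
  carrier := {F | F ∈ YY (GT1 (m := M)) ⊔ relSub M ∧ ∀ p ∈ B, lamF M p F = 0}
  zero_mem' := ⟨AddSubgroup.zero_mem _, fun _ _ => map_zero _⟩
  add_mem' := fun ha hb => ⟨AddSubgroup.add_mem _ ha.1 hb.1, fun p hp => by
    rw [map_add, ha.2 p hp, hb.2 p hp, add_zero]⟩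
  neg_mem' := fun ha => ⟨AddSubgroup.neg_mem _ ha.1, fun p hp => by
    rw [map_neg, ha.2 p hp, neg_zero]⟩

lemma mem_X0 {M : ℕ} [NeZero M] {B : Finset ℕ} {F : ZMod M → ℤ} :
    F ∈ X0 M B ↔ F ∈ YY (GT1 (m := M)) ⊔ relSub M ∧ ∀ p ∈ B, lamF M p F = 0 := Iff.rfl

/-- together with the classes of the pairs `r p, p` -/
noncomputable def XB (M : ℕ) [NeZero M] (r : ℕ → ℕ) (B : Finset ℕ) : AddSubgroup (ZMod M → ℤ) :=
  X0 M B ⊔ AddSubgroup.closure {F | ∃ p ∈ B, F = EP M (r p) p}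

/-- auxiliary primes -/
def AuxR (r : ℕ → ℕ) : Prop :=
  ∀ p, p.Prime → p % 4 = 1 → (r p).Prime ∧ r p % 4 = 3 ∧ ch p (r p) = -1

lemma exists_auxR : ∃ r, AuxR r := by
  have h : ∀ p : ℕ, ∃ r : ℕ, p.Prime → p % 4 = 1 → r.Prime ∧ r % 4 = 3 ∧ ch p r = -1 := by
    intro p
    by_cases hp : p.Prime ∧ p % 4 = 1
    · obtain ⟨q0, h1, h2, h3, -⟩ := exists_aux_one hp.1 hp.2 0
      exact ⟨q0, fun _ _ => ⟨h1, h2, h3⟩⟩
    · exact ⟨0, fun h1 h2 => absurd ⟨h1, h2⟩ hp⟩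
  choose r hr using h
  exact ⟨r, hr⟩

/-- the mild primes `1 mod 4` -/
def Mi (p : ℕ) : Prop := p = 5 ∨ p = 13 ∨ p = 17

/-- sets of primes `1 mod 4`, not mild -/
def BB (B : Finset ℕ) : Prop := ∀ p ∈ B, p.Prime ∧ p % 4 = 1 ∧ ¬ Mi p

private lemma ep_self {p : ℕ} (h : p ≠ 2) : ep p = p := by
  unfold ep
  rw [if_neg h]

variable {M : ℕ} [NeZero M]

lemma relSub_le_X0 {B : Finset ℕ} (hB : BB B) : relSub M ≤ X0 M B := by
  intro F hF
  refine ⟨AddSubgroup.mem_sup_right hF, fun p hp => lamF_relSub (hB p hp).1 ?_ hF⟩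
  have := (hB p hp).2.1
  rintro rfl
  omega

lemma X0_le {B : Finset ℕ} : X0 M B ≤ YY (GT1 (m := M)) ⊔ relSub M := fun _ hF => hF.1

lemma hasTh_X0 (h2 : 2 ∣ M) {B : Finset ℕ} (hB : BB B) : HasTh (X0 M B) := by
  intro F hF hT
  exact ⟨AddSubgroup.mem_sup_left (thetaSub1_le_GT1 h2 hF hT), fun p hp =>
    lamF_theta (hB p hp).1 (hB p hp).2.1 hF⟩

lemma hasTh_XB (h2 : 2 ∣ M) {B : Finset ℕ} (hB : BB B) (r : ℕ → ℕ) : HasTh (XB M r B) :=
  fun F hF hT => AddSubgroup.mem_sup_left (hasTh_X0 h2 hB F hF hT)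

/-- the classes of the pairs of primes not in `B` -/
lemma PX.to_X0 {B : Finset ℕ} (hB : BB B) {p q : ℕ} (hp : p.Prime) (hq : q.Prime) (hpB : p ∉ B)
    (hqB : q ∉ B) (h : PX (YY (GT1 (m := M))) p q) : PX (X0 M B) p q := by
  obtain ⟨E, hE, hsup, hk⟩ := h
  have hX : E ∈ X0 M B := by
    refine ⟨hE.mem, fun b hb => ?_⟩
    obtain ⟨hbp, hb4, -⟩ := hB b hb
    have hb2 : b ≠ 2 := by
      rintro rfl
      omega
    apply lamF_eq_zero
    intro a ha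
    by_contra hne
    obtain ⟨k, hk⟩ := order_Pp hbp ha
    have h1 : b ∣ Nat.lcm 2 (ep p * ep q) := by
      refine Dvd.dvd.trans ?_ (hsup a hne).1
      rw [hk]
      exact dvd_pow_self b (Nat.succ_ne_zero k)
    have h3 : ∀ s : ℕ, s.Prime → b ∣ ep s → b = s := by
      intro s hs h
      unfold ep at h
      split_ifs at h with h4
      · have : b ∣ 2 ^ 2 := h
        exact absurd ((Nat.prime_dvd_prime_iff_eq hbp Nat.prime_two).mp
          (hbp.dvd_of_dvd_pow this)) hb2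
      · exact (Nat.prime_dvd_prime_iff_eq hbp hs).mp h
    rcases hbp.dvd_lcm.mp h1 with h4 | h4
    · exact hb2 ((Nat.prime_dvd_prime_iff_eq hbp Nat.prime_two).mp h4)
    · rcases (Nat.Prime.dvd_mul hbp).mp h4 with h5 | h5
      · exact hpB (h3 p hp h5 ▸ hb)
      · exact hqB (h3 q hq h5 ▸ hb)
  exact ⟨E, ⟨AddSubgroup.mem_sup_left hX, hE.odd, hE.tate⟩, hsup, hk⟩

lemma X0_le_XB {B : Finset ℕ} {r : ℕ → ℕ} : X0 M B ≤ XB M r B := le_sup_left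

/-- the classes of the pairs `r p, p` -/
lemma PX_r {B : Finset ℕ} (hB : BB B) {r : ℕ → ℕ} (hr : AuxR r) {p : ℕ} (hp : p ∈ B)
    (hm : r p * p ∣ M) : PX (XB M r B) (r p) p := by
  obtain ⟨h1, h2, -⟩ := hB p hp
  obtain ⟨h3, h4, -⟩ := hr p h1 h2
  refine EP_PX h3 h1 h4 (by rintro rfl; omega) (fun h => by rw [h] at h4; omega) hm ?_
  exact AddSubgroup.mem_sup_right (AddSubgroup.subset_closure ⟨p, hp, rfl⟩)

/-- a prime `1 mod 4`, mild or in `B`, and a prime which is not `1 mod 4` -/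
theorem PX_q {r : ℕ → ℕ} (hr : AuxR r) {p q : ℕ} (hp : p.Prime) (hp4 : p % 4 = 1) (hq : q.Prime)
    (hq4 : q % 4 ≠ 1) : ∃ N ≠ 0, ∀ (M : ℕ) [NeZero M], N ∣ M → ∀ B, BB B → (Mi p ∨ p ∈ B) →
      PX (XB M r B) q p := by
  obtain ⟨r1, r2, r3⟩ := hr p hp hp4
  have hq' : q = 2 ∨ q % 4 = 3 := by
    rcases hq.eq_two_or_odd with h | h
    · exact Or.inl h
    · right; omega
  refine ⟨24 * (ep q * p) * (ep q * (ep (r p) * ep p)), ?_, ?_⟩
  · have h1 := (ep_pos hq).ne'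
    have h2 := (ep_pos hp).ne'
    have h3 := (ep_pos r1).ne'
    have h4 := hp.ne_zero
    positivity
  intro M _ hM B hB h
  have hM1 : 24 * (ep q * p) ∣ M := (Dvd.intro _ rfl).trans hM
  have hM2 : ep q * (ep (r p) * ep p) ∣ M := (Dvd.intro_left _ rfl).trans hM
  have h2M : 2 ∣ M := ((by norm_num : 2 ∣ 24).trans (dvd_mul_right _ _)).trans hM1
  have hp2 : p ≠ 2 := by rintro rfl; omega
  have hr2 : r p ≠ 2 := by
    intro h
    rw [h] at r2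
    omega
  rcases h with h | h
  · have hpB : p ∉ B := fun hb => (hB p hb).2.2 h
    have hqB : q ∉ B := fun hb => hq4 (hB q hb).2.1
    exact PX.mono X0_le_XB (PX.to_X0 hB hq hp hqB hpB (PX_base h hq hq4 hM1))
  · have h1 : PX (XB M r B) (r p) p := PX_r hB hr h (by
      have h3 : ep (r p) * ep p ∣ M := (Dvd.intro_left _ rfl).trans hM2
      rwa [ep_self hr2, ep_self hp2] at h3)
    by_cases hne : q = r p
    · rw [hne]
      exact h1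
    · exact pair_transfer (hasTh_XB h2M hB r) hq r1 hp hq' (Or.inr r2) hp4 hne hM2 r3 (Or.inr h1)

/-- two primes `1 mod 4` -/
theorem PX_pp {r : ℕ → ℕ} (hr : AuxR r) {p p' : ℕ} (hp : p.Prime) (hp4 : p % 4 = 1)
    (hp' : p'.Prime) (hp4' : p' % 4 = 1) (hpp : p ≠ p') : ∃ N ≠ 0, ∀ (M : ℕ) [NeZero M], N ∣ M →
      ∀ B, BB B → (Mi p ∨ p ∈ B) → (Mi p' ∨ p' ∈ B) → PX (XB M r B) p p' := by
  obtain ⟨q0, q1, hq0, hq1, h0, h1, h01, -, -, s1, s2, s3, s4, s5⟩ :=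
    exists_aux_two hp hp' hp4 hp4' hpp 0
  obtain ⟨N0, hN0, hN0'⟩ := PX_q hr hp hp4 hq0 (by omega)
  obtain ⟨N1, hN1, hN1'⟩ := PX_q hr hp' hp4' hq1 (by omega)
  refine ⟨N0 * N1 * (2 * (q0 * q1 * p * p')), ?_, ?_⟩
  · have g0 := hq0.ne_zero
    have g1 := hq1.ne_zero
    have g2 := hp.ne_zero
    have g3 := hp'.ne_zero
    positivity
  intro M _ hM B hB hb hb'
  have hM1 : N0 ∣ M := (Dvd.dvd.trans ⟨N1 * (2 * (q0 * q1 * p * p')), by ring⟩) hM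
  have hM2 : N1 ∣ M := (Dvd.dvd.trans ⟨N0 * (2 * (q0 * q1 * p * p')), by ring⟩) hM
  have hM3 : q0 * q1 * p * p' ∣ M := (Dvd.dvd.trans ⟨N0 * N1 * 2, by ring⟩) hM
  have hM4 : 2 ∣ M := (Dvd.dvd.trans ⟨N0 * N1 * (q0 * q1 * p * p'), by ring⟩) hM
  exact pair_one (hasTh_XB hM4 hB r) hq0 hq1 hp hp' h0 h1 hp4 hp4' h01 hpp s1 s2 s3 s4 s5 hM3
    (Or.inr ⟨hN0' M hM1 B hB hb, hN1' M hM2 B hB hb'⟩)

/-- the primes which are no obstacle -/
def OKp (B : Finset ℕ) (p : ℕ) : Prop := p % 4 ≠ 1 ∨ Mi p ∨ p ∈ B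

/-- the condition on pairs -/
def NBB (B : Finset ℕ) (p q : ℕ) : Prop := NB p q ∨ OKp B p ∧ OKp B q

private lemma N_ok {P : Prop} {Q : ℕ → Prop} (h : P → ∃ N : ℕ, N ≠ 0 ∧ Q N) :
    ∃ N : ℕ, N ≠ 0 ∧ (P → Q N) := by
  by_cases hP : P
  · obtain ⟨N, h1, h2⟩ := h hP
    exact ⟨N, h1, fun _ => h2⟩
  · exact ⟨1, one_ne_zero, fun h => absurd h hP⟩

/-- all pairs -/
theorem PX_NBB {r : ℕ → ℕ} (hr : AuxR r) {p q : ℕ} (hp : p.Prime) (hq : q.Prime) (hpq : p < q) :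
    ∃ N ≠ 0, ∀ (M : ℕ) [NeZero M], N ∣ M → ∀ B, BB B → NBB B p q → PX (XB M r B) p q := by
  have hq2 : q ≠ 2 := by
    have := hp.two_le
    omega
  have hqo : Odd q := hq.odd_of_ne_two hq2
  -- the known pairs
  obtain ⟨N1, h1, h1'⟩ : ∃ N : ℕ, N ≠ 0 ∧ (NB p q → ∀ (M : ℕ) [NeZero M], N ∣ M →
      PX (YY (GT1 (m := M))) p q) := N_ok fun h => PX_NB hp hq hpq h
  -- good pairs
  obtain ⟨N2, h2, h2'⟩ : ∃ N : ℕ, N ≠ 0 ∧ (Gd {p, q} → ∀ (M : ℕ) [NeZero M], N ∣ M →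
      ∀ X : AddSubgroup (ZMod M → ℤ), HasTh X → PX X p q) :=
    N_ok fun h => PX_good hp hq hpq.ne h
  -- one prime `1 mod 4`
  obtain ⟨N3, h3, h3'⟩ : ∃ N : ℕ, N ≠ 0 ∧ (p % 4 = 1 ∧ q % 4 ≠ 1 → ∀ (M : ℕ) [NeZero M], N ∣ M →
      ∀ B, BB B → (Mi p ∨ p ∈ B) → PX (XB M r B) q p) :=
    N_ok fun h => PX_q hr hp h.1 hq h.2
  obtain ⟨N4, h4, h4'⟩ : ∃ N : ℕ, N ≠ 0 ∧ (q % 4 = 1 ∧ p % 4 ≠ 1 → ∀ (M : ℕ) [NeZero M], N ∣ M →
      ∀ B, BB B → (Mi q ∨ q ∈ B) → PX (XB M r B) p q) :=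
    N_ok fun h => PX_q hr hq h.1 hp h.2
  -- both
  obtain ⟨N5, h5, h5'⟩ : ∃ N : ℕ, N ≠ 0 ∧ (p % 4 = 1 ∧ q % 4 = 1 → ∀ (M : ℕ) [NeZero M], N ∣ M →
      ∀ B, BB B → (Mi p ∨ p ∈ B) → (Mi q ∨ q ∈ B) → PX (XB M r B) p q) :=
    N_ok fun h => PX_pp hr hp h.1 hq h.2 hpq.ne
  refine ⟨N1 * N2 * N3 * N4 * N5 * (2 * (ep q * ep p)), ?_, ?_⟩
  · have g1 := (ep_pos hp).ne'
    have g2 := (ep_pos hq).ne'
    positivity
  intro M _ hM B hB h
  have hM1 : N1 ∣ M := (Dvd.dvd.trans ⟨N2 * N3 * N4 * N5 * (2 * (ep q * ep p)), by ring⟩) hM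
  have hM2 : N2 ∣ M := (Dvd.dvd.trans ⟨N1 * N3 * N4 * N5 * (2 * (ep q * ep p)), by ring⟩) hM
  have hM3 : N3 ∣ M := (Dvd.dvd.trans ⟨N1 * N2 * N4 * N5 * (2 * (ep q * ep p)), by ring⟩) hM
  have hM4 : N4 ∣ M := (Dvd.dvd.trans ⟨N1 * N2 * N3 * N5 * (2 * (ep q * ep p)), by ring⟩) hM
  have hM5 : N5 ∣ M := (Dvd.dvd.trans ⟨N1 * N2 * N3 * N4 * (2 * (ep q * ep p)), by ring⟩) hM
  have hM6 : ep q * ep p ∣ M := (Dvd.dvd.trans ⟨N1 * N2 * N3 * N4 * N5 * 2, by ring⟩) hM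
  have hM7 : 2 ∣ M := (Dvd.dvd.trans ⟨N1 * N2 * N3 * N4 * N5 * (ep q * ep p), by ring⟩) hM
  have hth := hasTh_XB hM7 hB r
  -- pairs without primes `1 mod 4`
  have hgd : (p % 4 = 1 → ch p q = 1) → (q % 4 = 1 → ch q p = 1) → Gd {p, q} := by
    intro a1 a2 x hx hx4 y hy hyx
    simp only [mem_insert, mem_singleton] at hx hy
    rcases hx with rfl | rfl
    · rcases hy with rfl | rfl
      · exact absurd rfl hyx
      · exact a1 hx4
    · rcases hy with rfl | rfl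
      · exact a2 hx4
      · exact absurd rfl hyx
  by_cases hok : OKp B p ∧ OKp B q
  · obtain ⟨o1, o2⟩ := hok
    by_cases c1 : p % 4 = 1
    · have o1' : Mi p ∨ p ∈ B := o1.resolve_left (fun h => h c1)
      by_cases c2 : q % 4 = 1
      · exact h5' ⟨c1, c2⟩ M hM5 B hB o1' (o2.resolve_left (fun h => h c2))
      · exact PX.symm hM6 (h3' ⟨c1, c2⟩ M hM3 B hB o1')
    · by_cases c2 : q % 4 = 1
      · exact h4' ⟨c2, c1⟩ M hM4 B hB (o2.resolve_left (fun h => h c2))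
      · exact h2' (hgd (fun h => absurd h c1) (fun h => absurd h c2)) M hM2 _ hth
  · have hNB : NB p q := h.resolve_right hok
    by_cases hpB : p ∈ B ∨ q ∈ B
    · -- the symbol is one
      refine h2' ?_ M hM2 _ hth
      rcases hNB with a | a | a | a
      · rcases hpB with h | h
        · exact absurd (hB p h).2.1 a.1
        · exact absurd (hB q h).2.1 a.2
      · exfalso
        have hnm : ¬ Mi p ∧ p % 4 = 1 ∨ ¬ Mi q ∧ q % 4 = 1 := by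
          rcases hpB with h | h
          · exact Or.inl ⟨(hB p h).2.2, (hB p h).2.1⟩
          · exact Or.inr ⟨(hB q h).2.2, (hB q h).2.1⟩
        unfold Tin at a
        unfold Mi at hnm
        have hq9 : q ≠ 9 := by
          rintro rfl
          norm_num at hq
        omega
      · refine hgd (fun c1 => ?_) (fun c2 => ?_)
        · have hp2 : p ≠ 2 := by rintro rfl; omega
          unfold ch
          rw [if_neg hp2, ← a]
          exact jacobiSym.quadratic_reciprocity_one_mod_four' hqo c1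
        · unfold ch
          rw [if_neg hq2]
          exact a
      · exact absurd ⟨a.1.imp id Or.inl, a.2.imp id Or.inl⟩ hok
    · push Not at hpB
      exact PX.mono X0_le_XB (PX.to_X0 hB hp hq hpB.1 hpB.2 (h1' hNB M hM1))

end Pool.Agent.Lib.MP_938ce2_ag_h99y
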