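import Pool.Agent.Lib.MP_938ce2_ag_h99y.Y06

/-!
All pairs and sets of prime factors of the level; the elements of `XB M r B` with even half sums.
-/

set_option autoImplicit false
set_option linter.style.haveILetI false
set_option linter.unusedSectionVars false

open Finset

namespace Pool.Agent.Lib.MP_938ce2_ag_h99y

open Pool.Agent.Lib.MP_938ce2_ag_h99 Pool.Agent.Lib.MP_938ce2_ag_h6
open Pool.Agent.Lib.MP_938ce2_ag_h99t Pool.Agent.Lib.MP_938ce2_ag_h99v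
open Pool.Agent.Lib.MP_938ce2_ag_h99x

/-- all pairs and all good sets of prime factors of `m` -/
theorem exists_levelB {m : ℕ} (hm : m ≠ 0) {r : ℕ → ℕ} (hr : AuxR r) :
    ∃ N ≠ 0, ∀ (M : ℕ) [NeZero M], N ∣ M → ∀ B, BB B →
      (∀ p q, p.Prime → q.Prime → p ∣ m → q ∣ m → p < q → NBB B p q → PX (XB M r B) p q) ∧
      (∀ S, S ⊆ m.primeFactors → S.Nonempty → Even S.card → Gd S → ExcP (XB M r B) S) ∧
      ∀ p ∈ B, p ∣ m → r p * p ∣ M := by
  classical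
  have h : ∀ x : ℕ × ℕ, ∃ N : ℕ, N ≠ 0 ∧ (x.1.Prime → x.2.Prime → x.1 < x.2 →
      ∀ (M : ℕ) [NeZero M], N ∣ M → ∀ B, BB B → NBB B x.1 x.2 → PX (XB M r B) x.1 x.2) := by
    intro x
    by_cases hx : x.1.Prime ∧ x.2.Prime ∧ x.1 < x.2
    · obtain ⟨N, hN, hN'⟩ := PX_NBB hr hx.1 hx.2.1 hx.2.2
      exact ⟨N, hN, fun _ _ _ => hN'⟩
    · exact ⟨1, one_ne_zero, fun h1 h2 h3 => absurd ⟨h1, h2, h3⟩ hx⟩
  choose N hN0 hN using h
  have hlev : ∀ S : Finset ℕ, ∃ N : ℕ, N ≠ 0 ∧ (S ⊆ m.primeFactors → S.Nonempty → Even S.card →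
      Gd S → ∀ (M : ℕ) [NeZero M], N ∣ M → ∀ X : AddSubgroup (ZMod M → ℤ), HasTh X →
        ExcP X S) := by
    intro S
    by_cases hS : S ⊆ m.primeFactors ∧ S.Nonempty ∧ Even S.card ∧ Gd S
    · obtain ⟨h1, h2, h3, h4⟩ := hS
      have hPJ : PJ S := fun p hp => Nat.prime_of_mem_primeFactors (h1 hp)
      obtain ⟨N, hN, hN'⟩ := excP_gen _ S rfl hPJ h2 h3 h4
      exact ⟨N, hN, fun _ _ _ _ => hN'⟩
    · exact ⟨1, one_ne_zero, fun h1 h2 h3 h4 => absurd ⟨h1, h2, h3, h4⟩ hS⟩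
  choose NS hNS0 hNS using hlev
  have hrp : ∀ p : ℕ, ∃ N : ℕ, N ≠ 0 ∧ (p.Prime → p % 4 = 1 → r p * p ∣ N) := by
    intro p
    by_cases hp : p.Prime ∧ p % 4 = 1
    · exact ⟨r p * p, mul_ne_zero (hr p hp.1 hp.2).1.ne_zero hp.1.ne_zero, fun _ _ => dvd_rfl⟩
    · exact ⟨1, one_ne_zero, fun h1 h2 => absurd ⟨h1, h2⟩ hp⟩
  choose NR hNR0 hNR using hrp
  refine ⟨(∏ x ∈ m.divisors ×ˢ m.divisors, N x) * (∏ S ∈ m.primeFactors.powerset, NS S) *
    ((∏ p ∈ m.divisors, NR p) * 2), ?_, ?_⟩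
  · refine mul_ne_zero (mul_ne_zero (Finset.prod_ne_zero_iff.2 fun x _ => hN0 x)
      (Finset.prod_ne_zero_iff.2 fun S _ => hNS0 S)) (mul_ne_zero
      (Finset.prod_ne_zero_iff.2 fun p _ => hNR0 p) two_ne_zero)
  intro M _ hM B hB
  have hM12 : (∏ x ∈ m.divisors ×ˢ m.divisors, N x) * (∏ S ∈ m.primeFactors.powerset, NS S) ∣ M :=
    (Dvd.intro _ rfl).trans hM
  have hM1 : ∏ x ∈ m.divisors ×ˢ m.divisors, N x ∣ M := (Dvd.intro _ rfl).trans hM12
  have hM2 : ∏ S ∈ m.primeFactors.powerset, NS S ∣ M := (Dvd.intro_left _ rfl).trans hM12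
  have hM34 : (∏ p ∈ m.divisors, NR p) * 2 ∣ M := (Dvd.intro_left _ rfl).trans hM
  have hM3 : ∏ p ∈ m.divisors, NR p ∣ M := (Dvd.intro _ rfl).trans hM34
  have hM4 : 2 ∣ M := (Dvd.intro_left _ rfl).trans hM34
  refine ⟨?_, ?_, ?_⟩
  · intro p q hp hq hpm hqm hpq hNB
    refine hN (p, q) hp hq hpq M ((Finset.dvd_prod_of_mem N ?_).trans hM1) B hB hNB
    rw [Finset.mem_product]
    exact ⟨Nat.mem_divisors.2 ⟨hpm, hm⟩, Nat.mem_divisors.2 ⟨hqm, hm⟩⟩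
  · intro S h1 h2 h3 h4
    exact hNS S h1 h2 h3 h4 M ((Finset.dvd_prod_of_mem _ (Finset.mem_powerset.2 h1)).trans hM2) _
      (hasTh_XB hM4 hB r)
  · intro p hp hpm
    obtain ⟨h1, h2, -⟩ := hB p hp
    exact (hNR p h1 h2).trans ((Finset.dvd_prod_of_mem NR (Nat.mem_divisors.2 ⟨hpm, hm⟩)).trans hM3)

/-- the elements of `XB M r B` with even half sums at the primes of `B` -/
theorem mem_of_XB {M : ℕ} [NeZero M] {r : ℕ → ℕ} (hr : AuxR r) {B : Finset ℕ} (hB : BB B)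
    (hm : ∀ p ∈ B, r p * p ∣ M) {F : ZMod M → ℤ} (hF : F ∈ XB M r B)
    (h0 : ∀ p ∈ B, lamF M p F = 0) : F ∈ YY (GT1 (m := M)) ⊔ relSub M := by
  classical
  -- the classes of the pairs
  have hp2 : ∀ p ∈ B, p ≠ 2 := by
    intro p hp
    have := (hB p hp).2.1
    rintro rfl
    omega
  have hdbl : ∀ p ∈ B, EP M (r p) p + EP M (r p) p ∈ X0 M B := by
    intro p hp
    obtain ⟨h1, h2, -⟩ := hB p hp
    obtain ⟨h3, h4, -⟩ := hr p h1 h2
    exact relSub_le_X0 hB (EP_double h3 h1 h4 (hp2 p hp) (fun h => by rw [h] at h4; omega)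
      (hm p hp))
  have hself : ∀ p ∈ B, lamF M p (EP M (r p) p) = 1 := by
    intro p hp
    obtain ⟨h1, h2, -⟩ := hB p hp
    obtain ⟨h3, h4, h5⟩ := hr p h1 h2
    exact lamF_EP_self h3 h1 (hp2 p hp) (fun h => by rw [h] at h4; omega) (hm p hp) h5
  have hne : ∀ p ∈ B, ∀ q ∈ B, q ≠ p → lamF M q (EP M (r p) p) = 0 := by
    intro p hp q hq hqp
    obtain ⟨h1, h2, -⟩ := hB p hp
    obtain ⟨h3, h4, h5⟩ := hr p h1 h2
    obtain ⟨h6, h7, -⟩ := hB q hq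
    exact lamF_EP_ne h3 h1 h6 (fun h => by rw [h] at h7; omega) hqp
  -- a combination
  have key : ∀ G ∈ AddSubgroup.closure {F : ZMod M → ℤ | ∃ p ∈ B, F = EP M (r p) p},
      ∃ n : ℕ → ℤ, G = ∑ p ∈ B, n p • EP M (r p) p := by
    intro G hG
    induction hG using AddSubgroup.closure_induction with
    | mem x hx =>
      obtain ⟨p, hp, rfl⟩ := hx
      refine ⟨fun q => if q = p then 1 else 0, ?_⟩
      rw [Finset.sum_eq_single p]
      · beta_reduce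
        rw [if_pos rfl, one_smul]
      · intro q _ hqp
        beta_reduce
        rw [if_neg hqp, zero_smul]
      · intro h
        exact absurd hp h
    | zero => exact ⟨fun _ => 0, by simp⟩
    | add x y _ _ hx hy =>
      obtain ⟨n, rfl⟩ := hx
      obtain ⟨n', rfl⟩ := hy
      refine ⟨fun p => n p + n' p, ?_⟩
      rw [← sum_add_distrib]
      exact sum_congr rfl fun p _ => (add_smul _ _ _).symm
    | neg x _ hx =>
      obtain ⟨n, rfl⟩ := hx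
      refine ⟨fun p => - n p, ?_⟩
      rw [← sum_neg_distrib]
      exact sum_congr rfl fun p _ => (neg_smul _ _).symm
  unfold XB at hF
  rw [AddSubgroup.mem_sup] at hF
  obtain ⟨x, hx, y, hy, rfl⟩ := hF
  obtain ⟨n, rfl⟩ := key y hy
  refine AddSubgroup.add_mem _ hx.1 (AddSubgroup.sum_mem _ fun p hp => ?_)
  have h1 := h0 p hp
  rw [map_add, hx.2 p hp, zero_add, map_sum, Finset.sum_eq_single p] at h1
  · rw [map_zsmul, hself p hp, zsmul_one] at h1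
    have h2 : (2 : ℤ) ∣ n p := (ZMod.intCast_zmod_eq_zero_iff_dvd (n p) 2).mp h1
    obtain ⟨c, hc⟩ := h2
    rw [hc, mul_comm, mul_smul, two_smul]
    exact AddSubgroup.zsmul_mem _ (X0_le (hdbl p hp)) c
  · intro q hq hqp
    rw [map_zsmul, hne q hq p hp (Ne.symm hqp), smul_zero]
  · intro h
    exact absurd hp h

end Pool.Agent.Lib.MP_938ce2_ag_h99y
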