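import Pool.Agent.Lib.MP_938ce2_ag_h99y.Y07

/-!
Tate characters of any length: pairs of effective primes and parities.
-/

set_option autoImplicit false
set_option linter.style.haveILetI false
set_option linter.unusedSectionVars false

open Finset

namespace Pool.Agent.Lib.MP_938ce2_ag_h99y

open Pool.Agent.Lib.MP_938ce2_ag_h99 Pool.Agent.Lib.MP_938ce2_ag_h6
open Pool.Agent.Lib.MP_938ce2_ag_h99t Pool.Agent.Lib.MP_938ce2_ag_h99v
open Pool.Agent.Lib.MP_938ce2_ag_h99x
open Pool.Agent.Lib.MP_938ce2_ag_h99w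

/-- the number of elements of `s` of order a power of `p`, not one, is even -/
def Evn {m : ℕ} [NeZero m] (s : Multiset (ZMod m)) (p : ℕ) : Prop :=
  open Classical in Even (s.filter fun a => a ∈ Pp m p).card

lemma Pp_jj {m M : ℕ} [NeZero m] [NeZero M] (hm : m ∣ M) (p : ℕ) (a : ZMod m) :
    jj hm a ∈ Pp M p ↔ a ∈ Pp m p := by
  rw [mem_Pp, mem_Pp]
  have h0 : jj hm 0 = 0 := map_zero (jj hm)
  have h1 : jj hm a = 0 ↔ a = 0 := by
    constructor
    · intro h
      exact jj_injective hm (h.trans h0.symm)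
    · rintro rfl
      exact h0
  have h2 : ∀ k : ℕ, ((p ^ k : ℕ) : ZMod M) * jj hm a = 0 ↔ ((p ^ k : ℕ) : ZMod m) * a = 0 := by
    intro k
    rw [natCast_mul_jj hm]
    constructor
    · intro h
      exact jj_injective hm (h.trans h0.symm)
    · intro h
      rw [h]
      exact h0
  simp only [ne_eq, h1, h2]

lemma lamF_lift {m M : ℕ} [NeZero m] [NeZero M] (hm : m ∣ M) {p : ℕ} (hp : p.Prime) (hp2 : p ≠ 2)
    {s : Multiset (ZMod m)} (h : Evn s p) : lamF M p (oddPart (s.map (jj hm))) = 0 := by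
  classical
  rw [lamF_oddPart hp hp2]
  have h1 : ∀ a ∈ Pp M p, ((s.map (jj hm)).count a : ZMod 2) =
      ((((s.map (jj hm)).filter fun a => a ∈ Pp M p).count a : ℕ) : ZMod 2) := by
    intro a ha
    rw [Multiset.count_filter, if_pos ha]
  rw [sum_congr rfl h1, ← Nat.cast_sum, Multiset.sum_count_eq_card (by
    intro a ha
    exact (Multiset.mem_filter.mp ha).2)]
  have h2 : ((s.map (jj hm)).filter fun a => a ∈ Pp M p) =
      (s.filter fun a => a ∈ Pp m p).map (jj hm) := by
    rw [Multiset.filter_map]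
    congr 1
    apply Multiset.filter_congr
    intro a _
    exact Pp_jj hm p a
  rw [h2, Multiset.card_map]
  unfold Evn at h
  obtain ⟨k, hk⟩ := h
  have h3 : (s.filter fun a => a ∈ Pp m p).card = 2 * k := by
    rw [two_mul]
    convert hk
  rw [h3]
  push_cast
  have : (2 : ZMod 2) = 0 := rfl
  rw [this, zero_mul]

variable {m : ℕ} [NeZero m]

theorem gen_auxX {m0 : ℕ} (hm0 : Nat.lcm 2 m0 ∣ m) {l : ℕ} (hl : 1 ≤ l)
    {X : AddSubgroup (ZMod m → ℤ)} (hrX : relSub m ≤ X) {Q : ℕ → ℕ → Prop}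
    (hP : ∀ p q, p.Prime → q.Prime → p ∣ Nat.lcm 2 m0 → q ∣ Nat.lcm 2 m0 → p < q → Q p q →
      PX X p q)
    (hE : ∀ S, S ⊆ (Nat.lcm 2 m0).primeFactors → S.Nonempty → Even S.card → Gd S → ExcP X S)
    (hb : Gd (effs m0 (l + 1)) ∨ (effs m0 (l + 1)).card ≤ 3)
    (ha : ∀ p q, p < q → Eff m0 p → Eff m0 q →
      Q p q ∨ (if p = 3 then 4 * l + 1 else 2 * l + 1) < q)
    {F : ZMod m → ℤ} (ho : OddF F) (hT : TateF F) (hN : ∑ a, |F a| ≤ 2 * l)
    (hs : ∀ a, F a ≠ 0 → addOrderOf a ∣ m0) : F ∈ X := by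
  classical
  set n0 := Nat.lcm 2 m0 with hn0
  have h2n : 2 ∣ n0 := Nat.dvd_lcm_left 2 m0
  have h2m : 2 ∣ m := h2n.trans hm0
  have hmn : m0 ∣ n0 := Nat.dvd_lcm_right 2 m0
  have hn00 : n0 ≠ 0 := fun h => NeZero.ne m (by rw [h] at hm0; exact Nat.eq_zero_of_zero_dvd hm0)
  have h6 : 3 ∣ n0 → 6 ∣ n0 := by
    intro h3
    omega
  have hXX : X ⊔ relSub m = X := sup_eq_left.mpr hrX
  -- the large primes
  obtain ⟨F1, a1, a2, a3, a4, a5⟩ := drop_all5 X h2m (N := 2 * l) (m0 := n0) h6
    (n0.primeFactors.filter (2 * l + 1 < ·)) (by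
      intro q hq
      rw [mem_filter] at hq
      have hqp := Nat.prime_of_mem_primeFactors hq.1
      have hqm := Nat.dvd_of_mem_primeFactors hq.1
      have hlq := hq.2
      have hlq' : ((2 * l + 1 : ℕ) : ℤ) < q := by exact_mod_cast hlq
      push_cast at hlq'
      refine ⟨hqp, by omega, by linarith, ?_⟩
      intro h3 hqm' hq32
      left
      have hq4 : q ≤ 4 * l + 1 := by
        have : (q : ℤ) ≤ ((4 * l + 1 : ℕ) : ℤ) := by
          push_cast
          linarith
        exact_mod_cast this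
      have e3 : Eff m0 3 := Eff.of_dvd_lcm (f := 3) (by norm_num) h3 (by
        rw [Nat.Prime.primeFactors Nat.prime_three]
        exact mem_singleton_self 3)
      have eq : Eff m0 q := Eff.of_dvd_lcm (f := q) (by
        have := hqp.eq_two_or_odd
        omega) hqm (by
        rw [Nat.Prime.primeFactors hqp]
        exact mem_singleton_self q)
      rcases ha 3 q (by omega) e3 eq with h5 | h5
      · have h7 := ref3_PX ((h6 h3).trans hm0) hqp (by omega) hqm'
          (hP 3 q Nat.prime_three hqp h3 hqm (by omega) h5)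
        rwa [hXX] at h7
      · rw [if_pos rfl] at h5
        omega) F ho hT hN (fun a ha => (hs a ha).trans hmn)
  -- the condition on the orders
  set D : ℕ → Prop := fun k => k ∣ n0 ∧ ∀ p, p.Prime → p ∣ k → p ≤ 2 * l + 1 with hD
  have hDc : ∀ f g, D f → g ∣ f → D g := fun f g h1 h2 =>
    ⟨h2.trans h1.1, fun p hp hpg => h1.2 p hp (hpg.trans h2)⟩
  have hs1 : ∀ a, F1 a ≠ 0 → D (addOrderOf a) := by
    intro a ha
    obtain ⟨b1, b2⟩ := a5 a ha
    have b3 : addOrderOf a ∣ n0 := by
      rcases b1 with b1 | b1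
      · exact (hs a b1).trans hmn
      · exact b1.2.trans (h6 b1.1)
    refine ⟨b3, fun p hp hpa => ?_⟩
    by_contra h
    exact b2 p (by
      rw [mem_filter, Nat.mem_primeFactors]
      exact ⟨⟨hp, hpa.trans b3, hn00⟩, by omega⟩) hpa
  -- levels with four effective primes
  obtain ⟨F2, b1, b2, b3, _, b5, b6⟩ := four_outD hDc (l := l) a2 a3 a4 hs1
  -- the descent
  set D2 : ℕ → Prop := fun k => D k ∧ (4 ≤ (effP k).card → ∀ p, p.Prime → p ∣ k → p ≤ l + 1)
    with hD2
  have hD2c : ∀ f g, D2 f → g ∣ f → D2 g := by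
    intro f g h1 h2
    have hf0 : f ≠ 0 := fun h => hn00 (by
      have := h1.1.1
      rw [h] at this
      exact Nat.eq_zero_of_zero_dvd this)
    refine ⟨hDc f g h1.1 h2, fun h4 p hp hpg => ?_⟩
    exact h1.2 (h4.trans (card_le_card (effP_mono h2 hf0))) p hp (hpg.trans h2)
  have hF2 : F2 ∈ X ⊔ relSub m := by
    refine mainA_aux hD2c X ?_ m F2 b2 b3 (fun a _ => Nat.le_of_dvd
      (Nat.pos_of_ne_zero (NeZero.ne m)) (addOrderOf_dvd_m a)) (fun a ha => ⟨b6 a ha, b5 a ha⟩)
    intro f hf hDf hf1 hf4 hfr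
    have hf0 : f ≠ 0 := f_ne_zero hf
    have hfn : f ∣ n0 := hDf.1.1
    set L := f.primeFactors with hL
    have hfL : f = fJ L := eff_prod hf0 hf4 hfr
    have hPJ : PJ L := fun p hp => Nat.prime_of_mem_primeFactors hp
    have hne : L.Nonempty := by
      rw [hL, Nat.nonempty_primeFactors]
      omega
    have hEff : ∀ p ∈ L, Eff m0 p := fun p hp => Eff.of_dvd_lcm hf4 hfn hp
    have hle2 : ∀ p ∈ L, p ≤ 2 * l + 1 := fun p hp =>
      hDf.1.2 p (hPJ p hp) (Nat.dvd_of_mem_primeFactors hp)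
    have key : Even L.card → ExcP X L := by
      intro hev
      have hpos : 0 < L.card := hne.card_pos
      rcases (by obtain ⟨k, hk⟩ := hev; omega : L.card = 2 ∨ 4 ≤ L.card) with hc | hc
      · obtain ⟨p', q', hpq', hp'⟩ := Finset.card_eq_two.mp hc
        obtain ⟨p, q, hpq, hp⟩ : ∃ p q, p < q ∧ L = {p, q} := by
          rcases lt_or_gt_of_ne hpq' with h | h
          · exact ⟨p', q', h, hp'⟩
          · exact ⟨q', p', h, by rw [hp', pair_comm]⟩
        have hpm : p ∈ L := by rw [hp]; simp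
        have hqm : q ∈ L := by rw [hp]; simp
        have hNB : Q p q := by
          rcases ha p q hpq (hEff p hpm) (hEff q hqm) with h5 | h5
          · exact h5
          · exfalso
            have := hle2 q hqm
            split_ifs at h5 <;> omega
        have hpp := hPJ p hpm
        have hqq := hPJ q hqm
        have hfe : ep p * ep q ∣ m := by
          have h7 : fJ L = ep p * ep q := by
            rw [hp]
            unfold fJ
            rw [prod_pair hpq.ne]
          rw [← h7, ← hfL]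
          exact hf
        rw [hp]
        exact PX.excP hpp hqq hpq.ne hfe (hP p q hpp hqq
          ((Nat.dvd_of_mem_primeFactors hpm).trans hfn)
          ((Nat.dvd_of_mem_primeFactors hqm).trans hfn) hpq hNB)
      · have hsm : ∀ p ∈ L, p ≤ l + 1 := fun p hp => hDf.2 (by
          rw [effP_eq hf4]
          exact hc) p (hPJ p hp) (Nat.dvd_of_mem_primeFactors hp)
        have hsub : L ⊆ effs m0 (l + 1) := by
          intro p hp
          unfold effs
          rw [mem_filter, mem_range]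
          exact ⟨by have := hsm p hp; omega, hEff p hp⟩
        rcases hb with hb | hb
        · exact hE L (Nat.primeFactors_mono hfn hn00) hne hev (hb.mono hsub)
        · exfalso
          have := card_le_card hsub
          omega
    have hfm' : fJ L ∣ m := by rw [← hfL]; exact hf
    have hDf' : D2 (fJ L) := by rw [← hfL]; exact hDf
    rw [hfL]
    refine step_excP hD2c hPJ hne hfm' hDf' ?_ key
    intro g hg _
    rw [← hfL] at hg
    have hgp : ∀ p, p.Prime → p ∣ g → p = 2 ∨ p ∣ f := by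
      intro p hp hpg
      rcases hp.dvd_lcm.mp (hpg.trans hg) with h7 | h7
      · exact Or.inl ((Nat.prime_dvd_prime_iff_eq hp Nat.prime_two).mp h7)
      · exact Or.inr h7
    refine ⟨⟨hg.trans (Nat.lcm_dvd h2n hfn), ?_⟩, ?_⟩
    · intro p hp hpg
      rcases hgp p hp hpg with h7 | h7
      · omega
      · exact hDf.1.2 p hp h7
    · intro h4 p hp hpg
      rcases hgp p hp hpg with h7 | h7
      · omega
      · exact hDf.2 (h4.trans (card_le_card (effP_lcm hf0 hg))) p hp h7
  rw [hXX] at hF2 a1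
  have e : F = (F - F1) + (-(F2 - F1)) + F2 := by abel
  rw [e]
  exact X.add_mem (X.add_mem a1 (X.neg_mem (hrX b1))) hF2

/-- the primes which are no obstacle for `s` -/
def OKs (s : Multiset (ZMod m)) (p : ℕ) : Prop := p % 4 ≠ 1 ∨ Mi p ∨ Evn s p

/-- Tate characters of any length. -/
theorem tate_genB (m : ℕ) [NeZero m] : ∃ N ≠ 0, m ∣ N ∧ ∀ (M : ℕ) [NeZero M], N ∣ M →
    ∀ (hm : m ∣ M) (s : Multiset (ZMod m)), IsTate s →
      (Gd (effs m (s.card + 1)) ∨ (effs m (s.card + 1)).card ≤ 3) →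
      (∀ p q, p < q → Eff m p → Eff m q →
        (NB p q ∨ OKs s p ∧ OKs s q) ∨ (if p = 3 then 4 * s.card + 1 else 2 * s.card + 1) < q) →
      IsAlgG GT1 (s.map (jj hm)) := by
  classical
  have hl0 : Nat.lcm 2 m ≠ 0 := Nat.lcm_ne_zero two_ne_zero (NeZero.ne m)
  obtain ⟨r, hr⟩ := exists_auxR
  obtain ⟨N, hN, hNM⟩ := exists_levelB hl0 hr
  refine ⟨N * Nat.lcm 2 m, mul_ne_zero hN hl0, (Nat.dvd_lcm_right 2 m).trans (Dvd.intro_left _ rfl),
    ?_⟩
  intro M _ hNM' hm s hs hb ha
  have h1 : N ∣ M := (Dvd.intro _ rfl).trans hNM'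
  have h2 : Nat.lcm 2 m ∣ M := (Dvd.intro_left _ rfl).trans hNM'
  set B : Finset ℕ := (Nat.lcm 2 m).primeFactors.filter fun p => p % 4 = 1 ∧ ¬ Mi p ∧ Evn s p
    with hBdef
  have hB : BB B := by
    intro p hp
    rw [hBdef, mem_filter] at hp
    exact ⟨Nat.prime_of_mem_primeFactors hp.1, hp.2.1, hp.2.2.1⟩
  obtain ⟨hP, hE, hR⟩ := hNM M h1 B hB
  set s' := s.map (jj hm) with hs'
  have hT := hs.lift hm
  have hcard : s'.card = s.card := Multiset.card_map _ _
  by_cases h4' : s.card ≤ 4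
  · exact IsAlgG.low s' hT (by rw [hcard]; exact h4')
  have hl1 := l1_le s'
  have hrX : relSub M ≤ XB M r B := (relSub_le_X0 hB).trans X0_le_XB
  have hok : ∀ p, Eff m p → OKs s p → OKp B p := by
    intro p hp h
    rcases h with h | h | h
    · exact Or.inl h
    · exact Or.inr (Or.inl h)
    · by_cases h4 : p % 4 = 1
      · by_cases hmi : Mi p
        · exact Or.inr (Or.inl hmi)
        · right
          right
          rw [hBdef, mem_filter, Nat.mem_primeFactors]
          exact ⟨⟨hp.1, hp.2.1.trans (Nat.dvd_lcm_right 2 m), hl0⟩, h4, hmi, h⟩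
      · exact Or.inl h4
  have hmem : oddPart s' ∈ XB M r B := gen_auxX (m := M) (m0 := m) h2 (l := s.card) (by omega) hrX
    (Q := NBB B) hP hE hb (by
      intro p q hpq hp hq
      rcases ha p q hpq hp hq with (h | ⟨h, h'⟩) | h
      · exact Or.inl (Or.inl h)
      · exact Or.inl (Or.inr ⟨hok p hp h, hok q hq h'⟩)
      · exact Or.inr h)
    (oddPart_odd s') (isTate_iff.mp hT).2.2 (by
      rw [hcard] at hl1
      exact hl1) (by
      intro a ha
      by_cases h : ∃ y, jj hm y = a
      · obtain ⟨y, rfl⟩ := h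
        exact Pool.Agent.Lib.MP_938ce2_ag_H7f.order_jj_dvd hm y
      · push Not at h
        exact absurd (oddPart_lift_of_forall_ne hm s h) ha)
  refine isAlgG_of_mem (fun r hr => hr.neg) hT (mem_of_XB hr hB ?_ hmem ?_)
  · intro p hp
    refine hR p hp ?_
    rw [hBdef, mem_filter] at hp
    exact Nat.dvd_of_mem_primeFactors hp.1
  · intro p hp
    have h3 := hp
    rw [hBdef, mem_filter] at h3
    have hp2 : p ≠ 2 := by
      have := h3.2.1
      rintro rfl
      omega
    exact lamF_lift hm (hB p hp).1 hp2 h3.2.2.2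

end Pool.Agent.Lib.MP_938ce2_ag_h99y
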